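import Mathlib

/-!
A countable family of Lipschitz functions with bounded support that determines the weak convergence
of probability measures.
-/

set_option autoImplicit false

namespace Pool.Agent.U154.QN

open MeasureTheory Filter Topology Finset TopologicalSpace
open scoped NNReal ENNReal

section bump

variable {X : Type*} [PseudoMetricSpace X] [SeparableSpace X] [Nonempty X]

/-- a bump function supported in a ball -/
noncomputable def hb (p : ℕ × ℕ) (k : ℕ) (x : X) : ℝ≥0 :=
  min 1 (Real.toNNReal (k * (1 / ((p.2 : ℝ) + 1) - dist x (denseSeq X p.1))))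

/-- a finite maximum of bump functions -/
noncomputable def Fb (J : Finset (ℕ × ℕ)) (k : ℕ) (x : X) : ℝ≥0 := J.sup (fun p => hb p k x)

theorem hb_le (p : ℕ × ℕ) (k : ℕ) (x : X) : hb p k x ≤ 1 := min_le_left _ _

theorem Fb_le (J : Finset (ℕ × ℕ)) (k : ℕ) (x : X) : Fb J k x ≤ 1 :=
  Finset.sup_le fun p _ => hb_le p k x

theorem hb_lip (p : ℕ × ℕ) (k : ℕ) (x y : X) :
    hb p k x ≤ hb p k y + Real.toNNReal (k * dist x y) := by
  unfold hb
  have hd : 0 ≤ (k:ℝ) * dist x y := by positivity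
  rcases le_total (1:ℝ≥0) (Real.toNNReal (k * (1 / ((p.2 : ℝ) + 1) - dist y (denseSeq X p.1))))
    with h | h
  · rw [min_eq_left h]
    exact (min_le_left _ _).trans le_self_add
  · rw [min_eq_right h]
    refine (min_le_right _ _).trans ?_
    refine le_trans ?_ Real.toNNReal_add_le
    apply Real.toNNReal_le_toNNReal
    have h1 := dist_triangle y x (denseSeq X p.1)
    rw [dist_comm y x] at h1
    have h2 := mul_le_mul_of_nonneg_left h1 (Nat.cast_nonneg (α := ℝ) k)
    nlinarith

theorem Fb_lip' (J : Finset (ℕ × ℕ)) (k : ℕ) (x y : X) :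
    Fb J k x ≤ Fb J k y + Real.toNNReal (k * dist x y) := by
  unfold Fb
  refine Finset.sup_le fun p hp => (hb_lip p k x y).trans ?_
  exact add_le_add_left (Finset.le_sup (f := fun p => hb p k y) hp) _

theorem Fb_lip (J : Finset (ℕ × ℕ)) (k : ℕ) (x y : X) :
    |(Fb J k x : ℝ) - Fb J k y| ≤ k * dist x y := by
  have hd : 0 ≤ (k:ℝ) * dist x y := by positivity
  have h1 := Fb_lip' J k x y
  have h2 := Fb_lip' J k y x
  rw [dist_comm y x] at h2
  have h1' : (Fb J k x : ℝ) ≤ Fb J k y + Real.toNNReal (k * dist x y) := by exact_mod_cast h1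
  have h2' : (Fb J k y : ℝ) ≤ Fb J k x + Real.toNNReal (k * dist x y) := by exact_mod_cast h2
  rw [Real.coe_toNNReal _ hd] at h1' h2'
  rw [abs_le]
  constructor <;> linarith

theorem Fb_cont (J : Finset (ℕ × ℕ)) (k : ℕ) : Continuous (fun x : X => (Fb J k x : ℝ)) := by
  have : LipschitzWith (k : ℝ≥0) (fun x : X => (Fb J k x : ℝ)) := by
    refine LipschitzWith.of_dist_le_mul fun x y => ?_
    rw [Real.dist_eq]
    exact_mod_cast Fb_lip J k x y
  exact this.continuous

theorem hb_zero {p : ℕ × ℕ} {k : ℕ} {x : X} (h : 1 / ((p.2 : ℝ) + 1) ≤ dist x (denseSeq X p.1)) :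
    hb p k x = 0 := by
  unfold hb
  rw [Real.toNNReal_of_nonpos]
  · simp
  · exact mul_nonpos_of_nonneg_of_nonpos (Nat.cast_nonneg _) (by linarith)

theorem Fb_supp (J : Finset (ℕ × ℕ)) (k : ℕ) (x0 : X) :
    ∃ A : ℝ, 0 < A ∧ ∀ x : X, A ≤ dist x x0 → Fb J k x = 0 := by
  refine ⟨1 + ∑ p ∈ J, (1 / ((p.2 : ℝ) + 1) + dist (denseSeq X p.1) x0), by positivity,
    fun x hx => ?_⟩
  unfold Fb
  rw [← bot_eq_zero, Finset.sup_eq_bot_iff]
  intro p hp
  rw [bot_eq_zero]
  apply hb_zero
  have h1 := dist_triangle x (denseSeq X p.1) x0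
  have h2 := Finset.single_le_sum (f := fun p : ℕ × ℕ =>
    1 / ((p.2 : ℝ) + 1) + dist (denseSeq X p.1) x0) (fun i _ => by positivity) hp
  linarith

/-- the finite families of balls contained in an open set -/
noncomputable def JG (G : Set X) (m : ℕ) : Finset (ℕ × ℕ) :=
  haveI : DecidablePred (fun p : ℕ × ℕ =>
    Metric.ball (denseSeq X p.1) (1 / ((p.2 : ℝ) + 1)) ⊆ G) := Classical.decPred _
  (Finset.range m ×ˢ Finset.range m).filter
    (fun p => Metric.ball (denseSeq X p.1) (1 / ((p.2 : ℝ) + 1)) ⊆ G)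

theorem mem_JG {G : Set X} {m : ℕ} {p : ℕ × ℕ} : p ∈ JG G m ↔
    (p.1 < m ∧ p.2 < m) ∧ Metric.ball (denseSeq X p.1) (1 / ((p.2 : ℝ) + 1)) ⊆ G := by
  classical
  unfold JG
  simp only [Finset.mem_filter, Finset.mem_product, Finset.mem_range]

theorem JG_zero {G : Set X} {m : ℕ} {x : X} (hx : x ∉ G) : Fb (JG G m) m x = 0 := by
  unfold Fb
  rw [← bot_eq_zero, Finset.sup_eq_bot_iff]
  intro p hp
  rw [bot_eq_zero]
  apply hb_zero
  rw [mem_JG] at hp
  by_contra hcon
  exact hx (hp.2 (Metric.mem_ball.2 (not_le.1 hcon)))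

theorem JG_one {G : Set X} (hG : IsOpen G) {x : X} (hx : x ∈ G) :
    ∀ᶠ m : ℕ in atTop, Fb (JG G m) m x = 1 := by
  obtain ⟨r, hr, hrG⟩ := Metric.isOpen_iff.1 hG x hx
  obtain ⟨q, hq⟩ := exists_nat_one_div_lt (half_pos hr)
  have hq0 : (0:ℝ) < 1 / ((q:ℝ) + 1) := by positivity
  obtain ⟨y, hy, ⟨i, hi⟩⟩ := Metric.dense_iff.1 (denseRange_denseSeq X) x _ hq0
  have hd : dist x (denseSeq X i) < 1 / ((q:ℝ) + 1) := by
    rw [hi]
    rw [dist_comm]
    exact Metric.mem_ball.1 hy
  have hsub : Metric.ball (denseSeq X i) (1 / ((q : ℝ) + 1)) ⊆ G := by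
    intro z hz
    apply hrG
    rw [Metric.mem_ball] at hz ⊢
    have := dist_triangle z (denseSeq X i) x
    rw [dist_comm (denseSeq X i) x] at this
    linarith
  have hgap : 0 < 1 / ((q:ℝ) + 1) - dist x (denseSeq X i) := sub_pos.2 hd
  filter_upwards [eventually_gt_atTop i, eventually_gt_atTop q,
    (tendsto_natCast_atTop_atTop (R := ℝ)).eventually_ge_atTop
      (1 / (1 / ((q:ℝ) + 1) - dist x (denseSeq X i)))] with m h1 h2 h3
  apply le_antisymm (Fb_le _ _ _)
  have h4 : hb (i, q) m x = 1 := by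
    unfold hb
    rw [min_eq_left]
    rw [div_le_iff₀ hgap] at h3
    rw [← Real.toNNReal_one]
    exact Real.toNNReal_le_toNNReal h3
  rw [← h4]
  unfold Fb
  apply Finset.le_sup (f := fun p => hb p m x)
  rw [mem_JG]
  exact ⟨⟨h1, h2⟩, hsub⟩

end bump

section conv

variable {X : Type*} [PseudoMetricSpace X] [SeparableSpace X] [Nonempty X] [MeasurableSpace X]
  [BorelSpace X]

theorem int_Fb_le (ν : Measure X) [IsProbabilityMeasure ν] {G : Set X} (hG : IsOpen G) (m : ℕ) :
    ∫ x, (Fb (JG G m) m x : ℝ) ∂ν ≤ ν.real G := by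
  have h1 : ∫ x, G.indicator (fun _ => (1:ℝ)) x ∂ν = ν.real G := by
    rw [integral_indicator hG.measurableSet]
    simp
  rw [← h1]
  apply integral_mono
  · exact Integrable.of_bound (Fb_cont _ _).aestronglyMeasurable 1 (Eventually.of_forall fun x => by
      rw [Real.norm_of_nonneg (NNReal.coe_nonneg _)]
      exact_mod_cast Fb_le _ _ x)
  · exact (integrable_const (1:ℝ)).indicator hG.measurableSet
  · intro x
    by_cases hx : x ∈ G
    · simp only [Set.indicator_of_mem hx]
      exact_mod_cast Fb_le _ _ x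
    · simp only [Set.indicator_of_notMem hx]
      rw [JG_zero hx]
      simp

theorem int_Fb_tend (μ : Measure X) [IsProbabilityMeasure μ] {G : Set X} (hG : IsOpen G) :
    Tendsto (fun m => ∫ x, (Fb (JG G m) m x : ℝ) ∂μ) atTop (𝓝 (μ.real G)) := by
  have h1 : ∫ x, G.indicator (fun _ => (1:ℝ)) x ∂μ = μ.real G := by
    rw [integral_indicator hG.measurableSet]
    simp
  rw [← h1]
  refine tendsto_integral_of_dominated_convergence (fun _ => 1)
    (fun m => (Fb_cont _ _).aestronglyMeasurable) (integrable_const _)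
    (fun m => Eventually.of_forall fun x => ?_) (Eventually.of_forall fun x => ?_)
  · rw [Real.norm_of_nonneg (NNReal.coe_nonneg _)]
    exact_mod_cast Fb_le _ _ x
  · by_cases hx : x ∈ G
    · simp only [Set.indicator_of_mem hx]
      exact tendsto_const_nhds.congr' ((JG_one hG hx).mono fun m hm => by
        show (1:ℝ) = (Fb (JG G m) m x : ℝ)
        rw [hm]; simp)
    · simp only [Set.indicator_of_notMem hx]
      exact tendsto_const_nhds.congr fun m => by
        show (0:ℝ) = (Fb (JG G m) m x : ℝ)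
        rw [JG_zero hx]; simp

/-- the countable family `Fb J k` determines the weak convergence -/
theorem weak_of_Fb {μ : ProbabilityMeasure X} {ν : ℕ → ProbabilityMeasure X}
    (h : ∀ J k, Tendsto (fun n => ∫ x, (Fb J k x : ℝ) ∂(ν n : Measure X)) atTop
      (𝓝 (∫ x, (Fb J k x : ℝ) ∂(μ : Measure X)))) : Tendsto ν atTop (𝓝 μ) := by
  apply tendsto_of_forall_isOpen_le_liminf'
  intro G hG
  apply le_of_forall_lt
  intro c hc
  have hc' : c ≠ ∞ := (hc.trans (measure_lt_top _ _)).ne
  have h1 : c.toReal < (μ : Measure X).real G := by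
    rw [measureReal_def]
    exact (ENNReal.toReal_lt_toReal hc' (measure_ne_top _ _)).2 hc
  obtain ⟨d, hd1, hd2⟩ := exists_between h1
  obtain ⟨m, hm⟩ := ((int_Fb_tend (μ : Measure X) hG).eventually_const_lt hd2).exists
  have h2 := (h (JG G m) m).eventually_const_lt hm
  have h3 : ENNReal.ofReal d ≤ liminf (fun i => (ν i : Measure X) G) atTop := by
    refine le_liminf_of_le (by isBoundedDefault) ?_
    filter_upwards [h2] with n hn
    have h4 := int_Fb_le (ν n : Measure X) hG m
    rw [← ofReal_measureReal]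
    exact ENNReal.ofReal_le_ofReal (hn.le.trans h4)
  refine lt_of_lt_of_le ?_ h3
  rw [← ENNReal.ofReal_toReal hc']
  exact (ENNReal.ofReal_lt_ofReal_iff (lt_of_le_of_lt ENNReal.toReal_nonneg hd1)).2 hd1

end conv

end Pool.Agent.U154.QN
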