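import Pool.Agent.U154.QN.Pw
import Pool.Agent.U154.QN.Pm

/-!
The empirical laws of the rescaled number of layers around the vertices of a box, in one
configuration.
-/

set_option autoImplicit false

namespace Pool.Agent.U154.QN

open H974 Finset Real Filter Topology MeasureTheory ProbabilityTheory Pool.Agent.W819.EN
  Pool.Agent.U154.NI Pool.Agent.H863R2.NL.PowAux Pool.Agent.H450R4.NL
open Pool.Agent.H863R2.NL (cN vN)
open Pool.Agent.N956.PL (crit op op_inter crit_op meas_op)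
open Pool.Agent.W605.EN (trl_bx bx_mono bx_disj)
open scoped NNReal ENNReal

theorem card_vb (n : ℕ) : (vb n).card = (2 * n + 1) ^ 2 := by
  unfold vb
  rw [card_product, Int.card_Icc]
  have : ((n:ℤ) + 1 - -(n:ℤ)).toNat = 2 * n + 1 := by omega
  rw [this]
  ring

theorem card_vb_pos (n : ℕ) : 0 < (vb n).card := by
  rw [card_vb]
  positivity

theorem vb_mono {m n : ℕ} (h : m ≤ n) : vb m ⊆ vb n := by
  unfold vb
  apply product_subset_product <;> apply Icc_subset_Icc <;> omega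

open Classical in
theorem near_card (V : Finset Vtx) (R : ℕ) (v : Vtx) :
    ((V.filter (fun w => Near R v w)).card : ℝ) ≤ (4 * (R : ℝ) + 1) ^ 2 := by
  have h1 : V.filter (fun w => Near R v w) ⊆
      Finset.Icc (v.1 - 2 * (R:ℤ)) (v.1 + 2 * R) ×ˢ Finset.Icc (v.2 - 2 * (R:ℤ)) (v.2 + 2 * R) := by
    intro w hw
    rw [mem_filter] at hw
    obtain ⟨_, hw⟩ := hw
    unfold Near at hw
    rw [not_or, not_lt, not_lt, abs_le, abs_le] at hw
    rw [mem_product, Finset.mem_Icc, Finset.mem_Icc]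
    omega
  have h2 := card_le_card h1
  rw [card_product, Int.card_Icc, Int.card_Icc] at h2
  have e1 : (v.1 + 2 * (R:ℤ) + 1 - (v.1 - 2 * R)).toNat = 4 * R + 1 := by omega
  have e2 : (v.2 + 2 * (R:ℤ) + 1 - (v.2 - 2 * R)).toNat = 4 * R + 1 := by omega
  rw [e1, e2] at h2
  have h3 : ((V.filter (fun w => Near R v w)).card : ℝ) ≤ ((4 * R + 1) * (4 * R + 1) : ℕ) := by
    exact_mod_cast h2
  refine h3.trans (le_of_eq ?_)
  push_cast
  ring

theorem avg_cmp {V : Finset Vtx} (hV : 0 < V.card) {G H U : Vtx → ℝ} {δ : ℝ}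
    (h : ∀ v ∈ V, |G v - H v| ≤ δ + U v) :
    |(∑ v ∈ V, G v) / V.card - (∑ v ∈ V, H v) / V.card| ≤ δ + (∑ v ∈ V, U v) / V.card := by
  have hV' : (0:ℝ) < V.card := by exact_mod_cast hV
  rw [← sub_div, ← Finset.sum_sub_distrib, abs_div, abs_of_pos hV', div_le_iff₀ hV', add_mul,
    div_mul_cancel₀ _ hV'.ne']
  refine (abs_sum_le_sum_abs _ _).trans ((sum_le_sum h).trans (le_of_eq ?_))
  rw [Finset.sum_add_distrib, sum_const, nsmul_eq_mul, mul_comm]

theorem vol_cmp {V W : Finset Vtx} (hVW : V ⊆ W) (hV : 0 < V.card) {G : Vtx → ℝ}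
    (h0 : ∀ v, 0 ≤ G v) (h1 : ∀ v, G v ≤ 1) :
    |(∑ v ∈ W, G v) / W.card - (∑ v ∈ V, G v) / V.card| ≤ 1 - (V.card : ℝ) / W.card := by
  have hV' : (0:ℝ) < V.card := by exact_mod_cast hV
  have hVW' : (V.card:ℝ) ≤ W.card := by exact_mod_cast card_le_card hVW
  have hW' : (0:ℝ) < W.card := by linarith
  have e1 : ∑ v ∈ W, G v = ∑ v ∈ V, G v + ∑ v ∈ W \ V, G v := by
    rw [add_comm, sum_sdiff hVW]
  have e2 : 0 ≤ ∑ v ∈ W \ V, G v := sum_nonneg fun v _ => h0 v
  have e3 : ∑ v ∈ W \ V, G v ≤ W.card - V.card := by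
    refine (sum_le_sum fun v _ => h1 v).trans ?_
    rw [sum_const, nsmul_eq_mul, mul_one, card_sdiff_of_subset hVW,
      Nat.cast_sub (card_le_card hVW)]
  have e4 : 0 ≤ ∑ v ∈ V, G v := sum_nonneg fun v _ => h0 v
  have e5 : ∑ v ∈ V, G v ≤ V.card := by
    refine (sum_le_sum fun v _ => h1 v).trans ?_
    rw [sum_const, nsmul_eq_mul, mul_one]
  have e6 : 1 - (V.card : ℝ) / W.card = (W.card - V.card) / W.card := by
    field_simp
  rw [e1, e6, abs_le]
  obtain ⟨S, hS⟩ : ∃ S, S = ∑ v ∈ V, G v := ⟨_, rfl⟩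
  obtain ⟨T, hT⟩ : ∃ T, T = ∑ v ∈ W \ V, G v := ⟨_, rfl⟩
  obtain ⟨x, hx⟩ : ∃ x : ℝ, x = V.card := ⟨_, rfl⟩
  obtain ⟨y, hy⟩ : ∃ y : ℝ, y = W.card := ⟨_, rfl⟩
  rw [← hS] at e4 e5
  rw [← hT] at e2 e3
  rw [← hS, ← hT, ← hx, ← hy]
  rw [← hx] at e3 e5 hV' hVW'
  rw [← hy] at e3 hVW' hW'
  have e7 : S / x ≤ 1 := (div_le_one hV').2 e5
  have e8 : 0 ≤ S / x := by positivity
  have e9 : (S + T) / y - S / x = (T - (S / x) * (y - x)) / y := by
    field_simp
    ring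
  rw [e9, ← neg_div]
  constructor
  · apply div_le_div_of_nonneg_right _ hW'.le
    nlinarith
  · apply div_le_div_of_nonneg_right _ hW'.le
    nlinarith

theorem vb_ratio {N N' n : ℕ} {c : ℝ} (hc : 1 ≤ c) (h : (N' : ℝ) ≤ c * N) (hn : n ≤ N') :
    1 - ((vb N).card : ℝ) / (vb n).card ≤ 2 * (c - 1) := by
  have h1 : ((vb n).card : ℝ) ≤ c ^ 2 * (vb N).card := by
    rw [card_vb, card_vb]
    push_cast
    rw [← mul_pow]
    apply pow_le_pow_left₀ (by positivity)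
    have : (n:ℝ) ≤ N' := by exact_mod_cast hn
    nlinarith
  have h2 : (0:ℝ) < (vb N).card := by exact_mod_cast card_vb_pos N
  have h3 : (0:ℝ) < (vb n).card := by exact_mod_cast card_vb_pos n
  have h4 : 1 / c ^ 2 ≤ ((vb N).card : ℝ) / (vb n).card := by
    rw [div_le_div_iff₀ (by positivity) h3]
    linarith
  have h5 : 1 - 2 * (c - 1) ≤ 1 / c ^ 2 := by
    rw [le_div_iff₀ (by positivity)]
    nlinarith [sq_nonneg (c - 1), mul_nonneg (sub_nonneg.2 hc) (sub_nonneg.2 hc)]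
  linarith

/-- the average over the box -/
noncomputable def av (n : ℕ) (G : Vtx → ℝ) : ℝ := (∑ v ∈ vb n, G v) / (vb n).card

theorem summ (C : ℝ) : Summable (fun k : ℕ => C * (1 / (k : ℝ) ^ 2)) :=
  (Real.summable_one_div_nat_pow.2 (by norm_num)).mul_left C

theorem log_nk4 {k : ℕ} (hk : 1 ≤ k) : 1 / log (nk k : ℝ) ^ 4 ≤ 1 / (k : ℝ) ^ 2 := by
  have hk' : (0:ℝ) < k := by exact_mod_cast hk
  apply one_div_le_one_div_of_le (by positivity)
  have h1 : (k:ℝ) ^ 2 = √(k:ℝ) ^ 4 := by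
    rw [show √(k:ℝ) ^ 4 = (√(k:ℝ) ^ 2) ^ 2 by ring, sq_sqrt hk'.le]
  rw [h1]
  exact pow_le_pow_left₀ (sqrt_nonneg _) (log_nk k) 4

/-- the average of the truncated functional concentrates -/
theorem conc_trunc {I : Finset ℝ≥0} {F : (I → ℝ) → ℝ} {K A : ℝ} (hF : TF I F K A)
    (hFm : Measurable F) :
    ∀ᵐ ω ∂crit, Tendsto (fun k => av (nk k) (fun v => F (fun s => Xt (nk k) s (sh v ω))) -
      ∫ ω', F (fun s => Xt (nk k) s ω') ∂crit) atTop (𝓝 0) := by
  classical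
  obtain ⟨f, hf⟩ : ∃ f : ℕ → Vtx → Finset Edg → ℝ, f = fun k v G =>
    F (fun s : I => ((NA G v 0 (min (ms (nk k) s) (Rn (nk k))) : ℝ) -
      (s : ℝ≥0) * (cN * log (nk k))) / √(vN * log (nk k))) := ⟨_, rfl⟩
  have e1 : ∀ (k : ℕ) (v : Vtx) (ω : Edg → Bool), f k v (op (bx v (Rn (nk k))) ω) =
      F (fun s => Xt (nk k) s (sh v ω)) := by
    intro k v ω
    rw [hf]
    simp only
    congr 1
    funext s
    unfold Xt
    rw [← Lv_sh, Lv_loc (bx_mono (v := v) (by exact_mod_cast min_le_right _ _))]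
  have hmX : ∀ N : ℕ, Measurable (fun ω : Edg → Bool => F (fun s => Xt N s ω)) := fun N =>
    hFm.comp (measurable_pi_lambda _ fun s => meas_Xt N s)
  have h := avg_loc_zero (fun k => vb (nk k)) (fun k => card_vb_pos _) (fun k => Rn (nk k)) f
    (m := fun k => ∫ ω', F (fun s => Xt (nk k) s ω') ∂crit)
    (D := fun k => (4 * (Rn (nk k) : ℝ) + 1) ^ 2) (c := fun k => 25 * (1 / (k : ℝ) ^ 2))
    (fun k v G => by
      rw [hf]
      simp only
      rw [abs_of_nonneg (hF.nn _)]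
      exact hF.le _)
    (fun k v hv => by
      simp only [e1]
      exact int_sh v (f := fun ω => F (fun s => Xt (nk k) s ω)) (hmX (nk k)))
    (fun k v hv => near_card _ _ v) (summ 25) (by
      filter_upwards [nk_tend.eventually ev_Rn, eventually_ge_atTop 1] with k hk hk1
      rw [card_vb]
      push_cast
      refine hk.2.2.2.trans ?_
      have := log_nk4 hk1
      rw [div_eq_mul_one_div]
      exact mul_le_mul_of_nonneg_left this (by norm_num))
  filter_upwards [h] with ω hω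
  refine hω.congr fun k => ?_
  simp only [e1]
  rfl

theorem rare_AB {ε : ℝ} (hε : 0 < ε) :
    ∀ᵐ ω ∂crit, Tendsto (fun k => av (nk k) (fun v =>
      (AB ε (nk k)).indicator (fun _ => (1:ℝ)) (sh v ω))) atTop (𝓝 0) := by
  refine avg_ind_zero (fun k => meas_AB ε (nk k)) (summ 1) ?_ (fun k => vb (nk k))
  filter_upwards [nk_tend.eventually (prob_AB hε), eventually_ge_atTop 1] with k hk hk1
  rw [one_mul]
  exact hk.trans (log_nk4 hk1)

theorem rare_AC {I : Finset ℝ≥0} (hI : ∀ s ∈ I, s ≤ 1) {ε : ℝ} (hε : 0 < ε) :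
    ∀ᵐ ω ∂crit, Tendsto (fun k => av (nk k) (fun v =>
      (AC I ε (nk k) (nk (k + 1))).indicator (fun _ => (1:ℝ)) (sh v ω))) atTop (𝓝 0) := by
  refine avg_ind_zero (fun k => meas_AC I ε (nk k) (nk (k + 1))) (summ I.card) ?_
    (fun k => vb (nk k))
  filter_upwards [prob_AC hI hε, eventually_ge_atTop 1] with k hk hk1
  exact hk.trans (mul_le_mul_of_nonneg_left (log_nk4 hk1) (Nat.cast_nonneg _))

end Pool.Agent.U154.QN
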