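import Pool.Agent.U154.QN.Qn
import Pool.Agent.U154.NI.Fin

/-!
The result for the bond percolation measure of the square lattice.
-/

set_option autoImplicit false

namespace Pool.Agent.U154.QN

open H974 Finset Real Filter Topology MeasureTheory ProbabilityTheory Pool.Agent.W819.EN
  Pool.Agent.U154.NI
open Pool.Agent.H863R2.NL (cN vN)
open scoped NNReal ENNReal BoundedContinuousFunction

theorem Xn_layers (n : ℕ) (s : ℝ≥0) (v : Vtx) (ω : sqLattice.edgeSet → Bool) :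
    Xn n s (sh v (fun e => ω (toE e))) =
      ((layers ⌊(n : ℝ) ^ (s : ℝ)⌋₊ v ω : ℝ) - s * (cN * log n)) / √(vN * log n) := by
  rw [layers_Lv, Lv_sh]
  rfl

theorem quenched_bond {Ω' : Type*} [MeasurableSpace Ω'] {P : Measure Ω'} [IsProbabilityMeasure P]
    {B : ℝ≥0 → Ω' → ℝ} (hB : IsPreBrownianReal B P) {I : Finset ℝ≥0} (hI : ∀ s ∈ I, s ≤ 1) :
    ∀ᵐ ω ∂(bondLaw hlf), ∀ f : (I → ℝ) →ᵇ ℝ,
      Tendsto (fun n : ℕ => (∑ v ∈ vb n, f (fun s : I =>
        ((layers ⌊(n : ℝ) ^ ((s : ℝ≥0) : ℝ)⌋₊ v ω : ℝ) - (s : ℝ≥0) * (cN * log n)) /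
          √(vN * log n))) / (vb n).card) atTop
        (𝓝 (∫ w, f (fun s : I => B s w) ∂P)) := by
  have h := ae_toE (P := fun ω => ∀ f : (I → ℝ) →ᵇ ℝ,
    Tendsto (fun n => av n (fun v => f (fun s => Xn n s (sh v ω)))) atTop
        (𝓝 (∫ w, f (fun s : I => B s w) ∂P))) (quenched hB hI)
  filter_upwards [h] with ω hω f
  have h2 := hω f
  simp only [Xn_layers] at h2
  exact h2

end Pool.Agent.U154.QN
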