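import Pool.Agent.U154.QN.Var

/-!
The growth of the number of layers over a polylogarithmic ratio of distances is negligible.
-/

set_option autoImplicit false

namespace Pool.Agent.U154.QN

open H974 Finset Real Filter Topology MeasureTheory ProbabilityTheory Pool.Agent.W819.EN
  Pool.Agent.U154.NI Pool.Agent.H863R2.NL.PowAux Pool.Agent.H450R4.NL
open Pool.Agent.H863R2.NL (cN vN)
open Pool.Agent.N956.PL (crit op op_inter crit_op meas_op)
open scoped NNReal ENNReal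

theorem ev_z {C a : ℝ} (hC : 0 < C) (ha : 0 < a) : ∀ᶠ z : ℝ in atTop, 1 ≤ z ∧
    z ^ 40 ≤ (4:ℝ) ^ ⌊z⌋₊ ∧
    4 + ((⌊z⌋₊ : ℝ) + 1) * (2 + 10 * ⌊z⌋₊) < a * z ^ 4 ∧
    ((⌊z⌋₊ : ℝ) + 1) * (C * (1 / 2) ^ ⌊z⌋₊) ≤ 1 / z ^ 32 := by
  have hl : 0 < log 2 := log_pos (by norm_num)
  have t1 := Real.tendsto_pow_mul_exp_neg_atTop_nhds_zero 40
  have t2 : Tendsto (fun z : ℝ => (z * log 2) ^ 33 * exp (-(z * log 2))) atTop (𝓝 0) :=
    (Real.tendsto_pow_mul_exp_neg_atTop_nhds_zero 33).comp (tendsto_id.atTop_mul_const hl)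
  have e1 : (0:ℝ) < exp (-1) := exp_pos _
  have e2 : (0:ℝ) < (log 2) ^ 33 / (4 * C) := by positivity
  filter_upwards [eventually_ge_atTop 1, t1.eventually_le_const e1, t2.eventually_le_const e2,
    eventually_gt_atTop (40 / a)] with z hz h1 h2 h3
  have hz0 : 0 < z := by linarith
  have hf1 : (⌊z⌋₊ : ℝ) ≤ z := Nat.floor_le hz0.le
  have hf2 : z - 1 ≤ (⌊z⌋₊ : ℝ) := by linarith [Nat.lt_floor_add_one z]
  have hf0 : (0:ℝ) ≤ (⌊z⌋₊ : ℝ) := Nat.cast_nonneg _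
  refine ⟨hz, ?_, ?_, ?_⟩
  · have h4 : z ^ 40 ≤ exp (z - 1) := by
      have h5 : z ^ 40 * exp (-z) * exp z ≤ exp (-1) * exp z :=
        mul_le_mul_of_nonneg_right h1 (exp_pos _).le
      rw [mul_assoc, ← exp_add, ← exp_add, neg_add_cancel, exp_zero, mul_one] at h5
      have : -1 + z = z - 1 := by ring
      rwa [this] at h5
    refine h4.trans ?_
    have h6 : exp 1 ≤ 4 := by
      have := exp_one_lt_d9
      linarith
    calc exp (z - 1) ≤ exp (⌊z⌋₊ : ℝ) := exp_le_exp.2 hf2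
      _ = exp 1 ^ ⌊z⌋₊ := by rw [← exp_nat_mul, mul_one]
      _ ≤ 4 ^ ⌊z⌋₊ := pow_le_pow_left₀ (exp_pos _).le h6 _
  · rw [div_lt_iff₀ ha] at h3
    have h4 : 4 + ((⌊z⌋₊ : ℝ) + 1) * (2 + 10 * ⌊z⌋₊) ≤ 4 + (z + 1) * (2 + 10 * z) := by
      gcongr
    have h5 : 4 + (z + 1) * (2 + 10 * z) ≤ 28 * z ^ 2 := by nlinarith
    have h6 : 28 * z ^ 2 < a * z ^ 4 := by
      have h7 : z ^ 2 ≤ z ^ 3 := pow_le_pow_right₀ hz (by norm_num)
      have h8 : 40 * z ^ 3 ≤ z * a * z ^ 3 := mul_le_mul_of_nonneg_right h3.le (by positivity)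
      have h9 : z * a * z ^ 3 = a * z ^ 4 := by ring
      have h10 : 0 < z ^ 2 := by positivity
      nlinarith
    linarith
  · have h4 : (1 / 2 : ℝ) ^ ⌊z⌋₊ ≤ 2 * exp (-(z * log 2)) := by
      have h5 : (1 / 2 : ℝ) ^ ⌊z⌋₊ = exp (-(⌊z⌋₊ * log 2)) := by
        rw [exp_neg, exp_nat_mul, exp_log (by norm_num), one_div, inv_pow]
      rw [h5]
      have h6 : (2:ℝ) * exp (-(z * log 2)) = exp (-((z - 1) * log 2)) := by
        rw [sub_mul, one_mul, neg_sub, sub_eq_add_neg, exp_add, exp_log (by norm_num)]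
      rw [h6]
      apply exp_le_exp.2
      have := mul_le_mul_of_nonneg_right hf2 hl.le
      linarith
    rw [le_div_iff₀ (by positivity)]
    have h7 : z ^ 33 * exp (-(z * log 2)) ≤ 1 / (4 * C) := by
      have h8 : (z * log 2) ^ 33 * exp (-(z * log 2)) =
          (log 2) ^ 33 * (z ^ 33 * exp (-(z * log 2))) := by ring
      rw [h8] at h2
      have h9 : (log 2) ^ 33 / (4 * C) = (log 2) ^ 33 * (1 / (4 * C)) := by ring
      rw [h9] at h2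
      exact le_of_mul_le_mul_left h2 (by positivity)
    have h10 : (⌊z⌋₊ : ℝ) + 1 ≤ 2 * z := by linarith
    calc ((⌊z⌋₊ : ℝ) + 1) * (C * (1 / 2) ^ ⌊z⌋₊) * z ^ 32 ≤
        (2 * z) * (C * (2 * exp (-(z * log 2)))) * z ^ 32 := by gcongr
      _ = 4 * C * (z ^ 33 * exp (-(z * log 2))) := by ring
      _ ≤ 4 * C * (1 / (4 * C)) := by gcongr
      _ = 1 := by field_simp

/-- the growth between comparable distances is negligible, with a polylogarithmic rate -/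
theorem small_growth {ε : ℝ} (hε : 0 < ε) : ∀ᶠ n : ℕ in atTop, ∀ m M : ℕ, 1 ≤ m → m ≤ M →
    (M : ℝ) ≤ log n ^ 5 * m →
    crit.real {ω | ε * √(vN * log n) ≤ (Lv (0, 0) M ω : ℝ) - Lv (0, 0) m ω} ≤
      1 / log n ^ 4 := by
  obtain ⟨C, hC, hg⟩ := growth
  have hvN := vN_pos
  have ha : 0 < ε * √vN := by positivity
  have tz : Tendsto (fun n : ℕ => log (n : ℝ) ^ (1 / 8 : ℝ)) atTop atTop :=
    (tendsto_rpow_atTop (by norm_num)).comp tend_log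
  filter_upwards [tz.eventually (ev_z hC ha), tend_log.eventually_gt_atTop 0] with n hn hl m M hm
    hmM hMm
  obtain ⟨z, hz⟩ : ∃ z : ℝ, z = log (n : ℝ) ^ (1 / 8 : ℝ) := ⟨_, rfl⟩
  rw [← hz] at hn
  obtain ⟨y, hy⟩ : ∃ y : ℝ, y = log (n : ℝ) := ⟨_, rfl⟩
  rw [← hy] at hl hMm hz ⊢
  have hz8 : z ^ 8 = y := by
    rw [hz, ← rpow_natCast, ← rpow_mul hl.le]
    norm_num
  obtain ⟨h0, h1, h2, h3⟩ := hn
  obtain ⟨J, hJ⟩ : ∃ J : ℕ, J = ⌊z⌋₊ := ⟨_, rfl⟩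
  rw [← hJ] at h1 h2 h3
  have h4 : M ≤ 4 ^ J * m := by
    have : (M:ℝ) ≤ 4 ^ J * m := by
      refine hMm.trans ?_
      apply mul_le_mul_of_nonneg_right _ (Nat.cast_nonneg _)
      rw [← hz8, ← pow_mul]
      exact h1
    exact_mod_cast this
  have h5 := hg m M J J hm hmM h4
  have e1 : 1 / y ^ 4 = 1 / z ^ 32 := by rw [← hz8, ← pow_mul]
  rw [e1]
  refine le_trans ?_ (h5.trans h3)
  apply measureReal_mono _ (by finiteness)
  intro ω hω
  simp only [Set.mem_ofPred_eq] at hω ⊢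
  have e2 : √(vN * y) = √vN * z ^ 4 := by
    rw [sqrt_mul hvN.le, ← hz8]
    congr 1
    rw [show z ^ 8 = (z ^ 4) ^ 2 by ring]
    exact sqrt_sq (by positivity)
  rw [e2] at hω
  have h6 : (4 + ((J:ℝ) + 1) * (2 + 10 * J)) < (Lv (0, 0) M ω : ℝ) - Lv (0, 0) m ω := by
    have : ε * (√vN * z ^ 4) = ε * √vN * z ^ 4 := by ring
    linarith
  have h7 : ((Lv (0, 0) m ω + (4 + (J + 1) * (2 + 10 * J)) : ℕ) : ℝ) < Lv (0, 0) M ω := by
    push_cast
    linarith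
  exact_mod_cast h7

end Pool.Agent.U154.QN
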