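import Pool.Agent.U154.QN.Seq

/-!
Pointwise comparisons of the rescaled processes at comparable scales.
-/

set_option autoImplicit false

namespace Pool.Agent.U154.QN

open H974 Finset Real Filter Topology MeasureTheory ProbabilityTheory Pool.Agent.W819.EN
  Pool.Agent.U154.NI Pool.Agent.H863R2.NL.PowAux Pool.Agent.H450R4.NL
open Pool.Agent.H863R2.NL (cN vN)
open Pool.Agent.N956.PL (crit op op_inter crit_op meas_op)
open Pool.Agent.W605.EN (trl_bx bx_mono bx_disj)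
open scoped NNReal ENNReal

/-- the truncation radius -/
noncomputable def Rn (N : ℕ) : ℕ := ⌊(N : ℝ) / log N ^ 4⌋₊

/-- the truncated process -/
noncomputable def Xt (N : ℕ) (s : ℝ≥0) (ω : Edg → Bool) : ℝ :=
  ((Lw ω (min (ms N s) (Rn N)) : ℝ) - s * (cN * log N)) / √(vN * log N)

theorem meas_Xt (n : ℕ) (s : ℝ≥0) : Measurable (Xt n s) :=
  ((meas_Lw' _).sub_const _).div_const _

/-- many layers close to the distance `N` -/
def AB (ε : ℝ) (N : ℕ) : Set (Edg → Bool) :=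
  {ω | ε * √(vN * log N) ≤ (Lv (0, 0) N ω : ℝ) - Lv (0, 0) (Rn N) ω}

/-- many layers between the distances for two scales -/
def AC (I : Finset ℝ≥0) (ε : ℝ) (N N' : ℕ) : Set (Edg → Bool) :=
  {ω | ∃ s ∈ I, ε * √(vN * log N) ≤ (Lv (0, 0) (ms N' s) ω : ℝ) - Lv (0, 0) (ms N s) ω}

theorem meas_Lv' (v : Vtx) (m : ℕ) : Measurable (fun ω => (Lv v m ω : ℝ)) :=
  measurable_from_top.comp (meas_Lv v m)

theorem meas_AB (ε : ℝ) (N : ℕ) : MeasurableSet (AB ε N) :=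
  measurableSet_le measurable_const ((meas_Lv' _ _).sub (meas_Lv' _ _))

theorem meas_AC (I : Finset ℝ≥0) (ε : ℝ) (N N' : ℕ) : MeasurableSet (AC I ε N N') := by
  have : AC I ε N N' = ⋃ s ∈ I,
      {ω | ε * √(vN * log N) ≤ (Lv (0, 0) (ms N' s) ω : ℝ) - Lv (0, 0) (ms N s) ω} := by
    ext ω
    simp [AC]
  rw [this]
  exact Finset.measurableSet_biUnion _ fun s _ =>
    measurableSet_le measurable_const ((meas_Lv' _ _).sub (meas_Lv' _ _))

theorem ev_Rn : ∀ᶠ N : ℕ in atTop, 1 ≤ Rn N ∧ Rn N ≤ N ∧ (N : ℝ) ≤ log N ^ 5 * Rn N ∧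
    4 * (4 * (Rn N : ℝ) + 1) ^ 2 / (2 * N + 1) ^ 2 ≤ 25 / log N ^ 4 := by
  have h1 : Tendsto (fun N : ℕ => (N : ℝ) / log N ^ 4) atTop atTop := by
    have h2 : Tendsto (fun x : ℝ => x / log x ^ 4) atTop atTop := by
      have h3 : Tendsto (fun y : ℝ => exp y / y ^ 4) atTop atTop := tendsto_exp_div_pow_atTop 4
      refine (h3.comp tendsto_log_atTop).congr' ?_
      filter_upwards [eventually_gt_atTop 0] with x hx
      simp only [Function.comp]
      rw [exp_log hx]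
    exact h2.comp tendsto_natCast_atTop_atTop
  filter_upwards [h1.eventually_ge_atTop 1, tend_log.eventually_ge_atTop 2,
    eventually_ge_atTop 1] with N h2 h3 h4
  have hN : (0:ℝ) < N := by exact_mod_cast h4
  obtain ⟨y, hy⟩ : ∃ y : ℝ, y = log (N : ℝ) := ⟨_, rfl⟩
  have hR1 : 1 ≤ Rn N := by
    unfold Rn
    exact (Nat.one_le_floor_iff _).2 h2
  have hRle : (Rn N : ℝ) ≤ N / log N ^ 4 := Nat.floor_le (by positivity)
  have hRge : (N : ℝ) / log N ^ 4 ≤ Rn N + 1 := (Nat.lt_floor_add_one _).le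
  rw [← hy] at h2 h3 hRle hRge ⊢
  have hy4 : (1:ℝ) ≤ y ^ 4 := one_le_pow₀ (by linarith)
  have hy4' : (0:ℝ) < y ^ 4 := by linarith
  have hR1' : (1:ℝ) ≤ Rn N := by exact_mod_cast hR1
  refine ⟨hR1, ?_, ?_, ?_⟩
  · have : (Rn N : ℝ) ≤ N := hRle.trans (div_le_self hN.le hy4)
    exact_mod_cast this
  · rw [div_le_iff₀ hy4'] at hRge
    calc (N : ℝ) ≤ (Rn N + 1) * y ^ 4 := hRge
      _ ≤ (2 * Rn N) * y ^ 4 := by gcongr; linarith
      _ ≤ (y * Rn N) * y ^ 4 := by gcongr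
      _ = y ^ 5 * Rn N := by ring
  · rw [le_div_iff₀ hy4'] at hRle
    rw [div_le_div_iff₀ (by positivity) hy4']
    have h5 : 4 * (Rn N : ℝ) + 1 ≤ 5 * Rn N := by linarith
    have h6 : y ^ 4 ≤ (y ^ 4) ^ 2 := by nlinarith
    calc 4 * (4 * (Rn N : ℝ) + 1) ^ 2 * y ^ 4 ≤ 4 * (5 * (Rn N : ℝ)) ^ 2 * (y ^ 4) ^ 2 := by
          gcongr
      _ = 100 * (Rn N * y ^ 4) ^ 2 := by ring
      _ ≤ 100 * (N : ℝ) ^ 2 := by gcongr
      _ = 25 * (2 * N) ^ 2 := by ring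
      _ ≤ 25 * (2 * N + 1) ^ 2 := by gcongr; linarith

theorem prob_AB {ε : ℝ} (hε : 0 < ε) : ∀ᶠ N : ℕ in atTop, crit.real (AB ε N) ≤ 1 / log N ^ 4 := by
  filter_upwards [small_growth hε, ev_Rn] with N h1 h2
  exact h1 (Rn N) N h2.1 h2.2.1 h2.2.2.1

theorem ms_ratio {N N' : ℕ} (hN : 1 ≤ N) (hNN : (N' : ℝ) ≤ 2 * N) {s : ℝ≥0} (hs : s ≤ 1) :
    (ms N' s : ℝ) ≤ 4 * ms N s := by
  have h1 : (N':ℝ) ^ (s:ℝ) ≤ 2 * (N : ℝ) ^ (s : ℝ) := by
    calc (N':ℝ) ^ (s:ℝ) ≤ (2 * N : ℝ) ^ (s : ℝ) := rpow_le_rpow (Nat.cast_nonneg _) hNN s.2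
      _ = 2 ^ (s:ℝ) * (N : ℝ) ^ (s:ℝ) := mul_rpow (by norm_num) (Nat.cast_nonneg _)
      _ ≤ 2 ^ (1:ℝ) * (N : ℝ) ^ (s:ℝ) := by
        gcongr
        · norm_num
        · exact_mod_cast hs
      _ = 2 * (N : ℝ) ^ (s : ℝ) := by rw [rpow_one]
  have h2 := ms_ge hN s
  have h3 : (ms N' s : ℝ) ≤ (N':ℝ) ^ (s:ℝ) := ms_le s
  linarith

theorem prob_AC {I : Finset ℝ≥0} (hI : ∀ s ∈ I, s ≤ 1) {ε : ℝ} (hε : 0 < ε) :
    ∀ᶠ k : ℕ in atTop, crit.real (AC I ε (nk k) (nk (k + 1))) ≤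
      I.card * (1 / log (nk k) ^ 4) := by
  have h1 := nk_tend.eventually (small_growth hε)
  filter_upwards [h1, nk_ratio (one_lt_two), nk_tend.eventually
    (tend_log.eventually_ge_atTop 2)] with k h1 h2 h3
  have e1 : AC I ε (nk k) (nk (k + 1)) = ⋃ s ∈ I,
      {ω | ε * √(vN * log (nk k)) ≤ (Lv (0, 0) (ms (nk (k + 1)) s) ω : ℝ) -
        Lv (0, 0) (ms (nk k) s) ω} := by
    ext ω
    simp [AC]
  rw [e1]
  refine (measureReal_biUnion_finset_le _ _).trans ?_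
  rw [← nsmul_eq_mul]
  refine Finset.sum_le_card_nsmul _ _ _ fun s hs => ?_
  refine h1 (ms (nk k) s) (ms (nk (k + 1)) s) (ms_one (nk_pos k) s) ?_ ?_
  · unfold ms
    apply Nat.floor_le_floor
    apply rpow_le_rpow (Nat.cast_nonneg _) _ s.2
    exact_mod_cast nk_mono (Nat.le_succ k)
  · refine (ms_ratio (nk_pos k) h2 (hI s hs)).trans ?_
    apply mul_le_mul_of_nonneg_right _ (Nat.cast_nonneg _)
    calc (4:ℝ) ≤ 2 ^ 5 := by norm_num
      _ ≤ log (nk k) ^ 5 := pow_le_pow_left₀ (by norm_num) h3 5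

/-- the test functions -/
structure TF (I : Finset ℝ≥0) (F : (I → ℝ) → ℝ) (K A : ℝ) : Prop where
  nn : ∀ x, 0 ≤ F x
  le : ∀ x, F x ≤ 1
  K0 : 0 ≤ K
  A0 : 0 < A
  lip : ∀ x y, |F x - F y| ≤ K * dist x y
  supp : ∀ x, A ≤ dist x 0 → F x = 0

/-- comparison with the truncated process -/
theorem cmp_trunc {I : Finset ℝ≥0} (hI : ∀ s ∈ I, s ≤ 1) {F : (I → ℝ) → ℝ} {K A : ℝ}
    (hF : TF I F K A) {ε : ℝ} (hε : 0 < ε) {N : ℕ} (hN : 2 ≤ N) {ω : Edg → Bool}
    (hω : ω ∉ AB ε N) :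
    |F (fun s => Xn N s ω) - F (fun s => Xt N s ω)| ≤ K * ε := by
  have hvN := vN_pos
  have hl : 0 < log (N:ℝ) := log_pos (by exact_mod_cast hN)
  have hsq : 0 < √(vN * log N) := sqrt_pos.2 (by positivity)
  refine (hF.lip _ _).trans (mul_le_mul_of_nonneg_left ?_ hF.K0)
  rw [dist_pi_le_iff hε.le]
  intro s
  rw [Real.dist_eq]
  unfold Xn Xt
  rw [← sub_div, sub_sub_sub_cancel_right, abs_div, abs_of_pos hsq, div_le_iff₀ hsq]
  have hω' : (Lv (0, 0) N ω : ℝ) - Lv (0, 0) (Rn N) ω < ε * √(vN * log N) := not_le.1 hω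
  have hsN : ms N s ≤ N := by
    have h1 : ms N s ≤ ms N 1 := ms_mono (by omega) (hI s s.2)
    have h2 : ms N 1 = N := by
      unfold ms
      simp
    omega
  rw [Lw_eq, Lw_eq]
  have h1 := Lv_mono (0, 0) (min_le_left (ms N s) (Rn N)) ω
  have h1' : (Lv (0, 0) (min (ms N s) (Rn N)) ω : ℝ) ≤ Lv (0, 0) (ms N s) ω := by
    exact_mod_cast h1
  rw [abs_of_nonneg (by linarith)]
  rcases le_total (ms N s) (Rn N) with h | h
  · rw [min_eq_left h, sub_self]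
    positivity
  · rw [min_eq_right h]
    have h2 : (Lv (0, 0) (ms N s) ω : ℝ) ≤ Lv (0, 0) N ω := by
      exact_mod_cast Lv_mono (0, 0) hsN ω
    linarith

/-- comparison of an affine image -/
theorem cmp_affine {I : Finset ℝ≥0} {F : (I → ℝ) → ℝ} {K A : ℝ}
    (hF : TF I F K A) {ε a : ℝ} (hε : 0 < ε) (hε1 : ε ≤ 1) (ha : 1 / 2 ≤ a) (ha1 : a ≤ 1)
    (x y e : I → ℝ) (hy : y = a • x + e) (he : dist e 0 ≤ ε) :
    |F y - F x| ≤ K * ((1 - a) * (2 * A + 2) + ε) := by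
  have hA := hF.A0
  have hK := hF.K0
  have hn : ‖e‖ ≤ ε := by simpa using he
  by_cases hx : 2 * A + 2 ≤ ‖x‖
  · have h1 : F x = 0 := hF.supp x (by rw [dist_zero_right]; linarith)
    have h2 : F y = 0 := by
      apply hF.supp
      rw [dist_zero_right, hy]
      have h3 : ‖a • x‖ ≤ ‖a • x + e‖ + ‖e‖ := by
        have := norm_sub_le (a • x + e) e
        rwa [add_sub_cancel_right] at this
      rw [norm_smul, Real.norm_eq_abs, abs_of_pos (by linarith)] at h3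
      have h4 : 1 / 2 * (2 * A + 2) ≤ a * ‖x‖ := by gcongr
      linarith
    rw [h1, h2, sub_self, abs_zero]
    have : 0 ≤ 1 - a := by linarith
    positivity
  · rw [not_le] at hx
    refine (hF.lip _ _).trans (mul_le_mul_of_nonneg_left ?_ hK)
    rw [dist_eq_norm, hy]
    have e1 : a • x + e - x = -((1 - a) • x) + e := by
      rw [sub_smul, one_smul]
      abel
    rw [e1]
    refine (norm_add_le _ _).trans ?_
    rw [norm_neg, norm_smul, Real.norm_eq_abs, abs_of_nonneg (by linarith)]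
    have : 0 ≤ 1 - a := by linarith
    gcongr

/-- comparison of two scales -/
theorem cmp_scale {I : Finset ℝ≥0} (hI : ∀ s ∈ I, s ≤ 1) {F : (I → ℝ) → ℝ} {K A : ℝ}
    (hF : TF I F K A) {ε a : ℝ} (hε : 0 < ε) (hε1 : ε ≤ 1) (ha : 1 / 2 ≤ a)
    {N n N' : ℕ} (hN : 2 ≤ N) (hn : N ≤ n) (hn' : n ≤ N')
    (hc : cN * (log N' - log N) ≤ ε * √(vN * log N))
    (hl' : a ≤ √(log N / log N'))
    {ω : Edg → Bool} (hω : ω ∉ AC I ε N N') :
    |F (fun s => Xn n s ω) - F (fun s => Xn N s ω)| ≤ K * ((1 - a) * (2 * A + 2) + ε) := by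
  have hvN := vN_pos
  have hcN := cN_pos
  have hA := hF.A0
  have hK := hF.K0
  have hN0 : (0:ℝ) < N := by exact_mod_cast (by omega : 0 < N)
  have hn0 : (0:ℝ) < n := by exact_mod_cast (by omega : 0 < n)
  have hl : 0 < log (N:ℝ) := log_pos (by exact_mod_cast hN)
  have hln : log (N:ℝ) ≤ log n := log_le_log hN0 (by exact_mod_cast hn)
  have hln' : log (n:ℝ) ≤ log N' := log_le_log hn0 (by exact_mod_cast hn')
  have hsq : 0 < √(vN * log N) := sqrt_pos.2 (by positivity)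
  have hsqn : √(vN * log N) ≤ √(vN * log n) := by gcongr
  have hsqn0 : 0 < √(vN * log n) := by linarith
  obtain ⟨b, hb⟩ : ∃ b : ℝ, b = √(log N / log n) := ⟨_, rfl⟩
  have hab : a ≤ b := by
    rw [hb]
    refine hl'.trans ?_
    apply sqrt_le_sqrt
    gcongr
    linarith
  have hb1 : b ≤ 1 := by
    rw [hb, sqrt_le_one]
    rw [div_le_one (by linarith)]
    exact hln
  have hbe : b * √(vN * log n) = √(vN * log N) := by
    rw [hb, ← sqrt_mul (by positivity)]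
    congr 1
    have : log (n:ℝ) ≠ 0 := by linarith
    field_simp
  obtain ⟨e, he⟩ : ∃ e : I → ℝ, e = fun s : I => ((Lv (0, 0) (ms n s) ω : ℝ) -
    Lv (0, 0) (ms N s) ω - (s : ℝ≥0) * (cN * (log n - log N))) / √(vN * log n) := ⟨_, rfl⟩
  have hb0 : b ≠ 0 := by linarith
  have hy : (fun s : I => Xn n s ω) = b • (fun s : I => Xn N s ω) + e := by
    funext s
    rw [he]
    simp only [Pi.add_apply, Pi.smul_apply, smul_eq_mul]
    unfold Xn
    rw [Lw_eq, Lw_eq, ← hbe]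
    have e1 : b * (((Lv (0, 0) (ms N s) ω : ℝ) - (s : ℝ≥0) * (cN * log N)) /
        (b * √(vN * log n))) =
        ((Lv (0, 0) (ms N s) ω : ℝ) - (s : ℝ≥0) * (cN * log N)) / √(vN * log n) := by
      field_simp
    rw [e1, ← add_div]
    congr 1
    ring
  have he' : dist e 0 ≤ ε := by
    rw [dist_pi_le_iff hε.le]
    intro s
    rw [he]
    simp only [Pi.zero_apply]
    rw [dist_zero_right, Real.norm_eq_abs, abs_div, abs_of_pos hsqn0, div_le_iff₀ hsqn0, abs_le]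
    have h1 : (Lv (0, 0) (ms N s) ω : ℝ) ≤ Lv (0, 0) (ms n s) ω := by
      have : ms N s ≤ ms n s := by
        unfold ms
        apply Nat.floor_le_floor
        exact rpow_le_rpow (Nat.cast_nonneg _) (by exact_mod_cast hn) (s : ℝ≥0).2
      exact_mod_cast Lv_mono (0, 0) this ω
    have h2 : (Lv (0, 0) (ms n s) ω : ℝ) ≤ Lv (0, 0) (ms N' s) ω := by
      have : ms n s ≤ ms N' s := by
        unfold ms
        apply Nat.floor_le_floor
        exact rpow_le_rpow (Nat.cast_nonneg _) (by exact_mod_cast hn') (s : ℝ≥0).2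
      exact_mod_cast Lv_mono (0, 0) this ω
    have h3 : (Lv (0, 0) (ms N' s) ω : ℝ) - Lv (0, 0) (ms N s) ω < ε * √(vN * log N) := by
      by_contra hcon
      exact hω ⟨s, s.2, not_lt.1 hcon⟩
    have h4 : 0 ≤ ((s : ℝ≥0) : ℝ) * (cN * (log n - log N)) := by
      have : 0 ≤ log (n:ℝ) - log N := by linarith
      have := (s : ℝ≥0).2
      positivity
    have h5 : ((s : ℝ≥0) : ℝ) * (cN * (log n - log N)) ≤ ε * √(vN * log N) := by
      have hs1 : ((s : ℝ≥0) : ℝ) ≤ 1 := by exact_mod_cast hI s s.2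
      have h6 : cN * (log (n:ℝ) - log N) ≤ cN * (log N' - log N) := by gcongr
      have h7 : 0 ≤ cN * (log (n:ℝ) - log N) := by
        have : 0 ≤ log (n:ℝ) - log N := by linarith
        positivity
      calc ((s : ℝ≥0) : ℝ) * (cN * (log n - log N)) ≤ 1 * (cN * (log n - log N)) := by gcongr
        _ ≤ ε * √(vN * log N) := by linarith
    have h8 : ε * √(vN * log N) ≤ ε * √(vN * log n) := by gcongr
    constructor <;> linarith
  have h := cmp_affine hF hε hε1 (ha.trans hab) hb1 _ _ _ hy he'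
  refine h.trans ?_
  gcongr

end Pool.Agent.U154.QN
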