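import Pool.Agent.U154.QN.Em

/-!
Convergence of the empirical laws to the law of Brownian motion, for almost every configuration.
-/

set_option autoImplicit false

namespace Pool.Agent.U154.QN

open H974 Finset Real Filter Topology MeasureTheory ProbabilityTheory Pool.Agent.W819.EN
  Pool.Agent.U154.NI Pool.Agent.H863R2.NL.PowAux Pool.Agent.H450R4.NL
open Pool.Agent.H863R2.NL (cN vN)
open Pool.Agent.N956.PL (crit op op_inter crit_op meas_op)
open scoped NNReal ENNReal BoundedContinuousFunction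

theorem TF.cont {I : Finset ℝ≥0} {F : (I → ℝ) → ℝ} {K A : ℝ} (hF : TF I F K A) :
    Continuous F := by
  have : LipschitzWith (Real.toNNReal K) F := by
    refine LipschitzWith.of_dist_le_mul fun x y => ?_
    rw [Real.coe_toNNReal _ hF.K0, Real.dist_eq]
    exact hF.lip x y
  exact this.continuous

theorem mean_Xn {Ω' : Type*} [MeasurableSpace Ω'] {P : Measure Ω'} [IsProbabilityMeasure P]
    {B : ℝ≥0 → Ω' → ℝ} (hB : IsPreBrownianReal B P) (I : Finset ℝ≥0) (f : (I → ℝ) →ᵇ ℝ) :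
    Tendsto (fun n => ∫ ω, f (fun s => Xn n s ω) ∂crit) atTop
      (𝓝 (∫ w, f (fun s : I => B s w) ∂P)) := by
  have h := fdd_crit hB I
  have h1 := ProbabilityMeasure.tendsto_iff_forall_integral_tendsto.1 h.tendsto f
  have e1 : ∀ n, ∫ x, f x ∂((⟨crit.map (fun ω (s : I) => Xn n s ω),
      Measure.isProbabilityMeasure_map (h.forall_aemeasurable n)⟩ :
        ProbabilityMeasure (I → ℝ)) : Measure (I → ℝ)) =
      ∫ ω, f (fun s => Xn n s ω) ∂crit := by
    intro n
    exact integral_map (h.forall_aemeasurable n) f.continuous.aestronglyMeasurable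
  have e2 : ∫ x, f x ∂((⟨P.map (fun w (s : I) => B s w),
      Measure.isProbabilityMeasure_map h.aemeasurable_limit⟩ :
        ProbabilityMeasure (I → ℝ)) : Measure (I → ℝ)) =
      ∫ w, f (fun s : I => B s w) ∂P :=
    integral_map h.aemeasurable_limit f.continuous.aestronglyMeasurable
  rw [← e2]
  exact h1.congr e1

/-- a test function as a bounded continuous function -/
noncomputable def TF.bcf {I : Finset ℝ≥0} {F : (I → ℝ) → ℝ} {K A : ℝ} (hF : TF I F K A) :
    (I → ℝ) →ᵇ ℝ :=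
  BoundedContinuousFunction.ofNormedAddCommGroup F hF.cont 1 fun x => by
    rw [Real.norm_of_nonneg (hF.nn x)]
    exact hF.le x

theorem int_close' {I : Finset ℝ≥0} (hI : ∀ s ∈ I, s ≤ 1) {F : (I → ℝ) → ℝ} {K A : ℝ}
    (hF : TF I F K A) {ε : ℝ} (hε : 0 < ε) {N : ℕ} (hN : 2 ≤ N) :
    |∫ ω, F (fun s => Xt N s ω) ∂crit - ∫ ω, F (fun s => Xn N s ω) ∂crit| ≤
      K * ε + crit.real (AB ε N) := by
  have hK := hF.K0
  have hm1 : Measurable (fun ω : Edg → Bool => F (fun s => Xt N s ω)) :=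
    hF.cont.measurable.comp (measurable_pi_lambda _ fun s => meas_Xt N s)
  have hm2 : Measurable (fun ω : Edg → Bool => F (fun s => Xn N s ω)) :=
    hF.cont.measurable.comp (measurable_pi_lambda _ fun s => meas_Xn N s)
  have hb : ∀ x, |F x| ≤ 1 := fun x => by
    rw [abs_of_nonneg (hF.nn x)]
    exact hF.le x
  rw [← integral_sub (int_bd hm1 fun ω => hb _) (int_bd hm2 fun ω => hb _)]
  have hi : Integrable (fun ω : Edg → Bool => K * ε + (AB ε N).indicator (fun _ => (1:ℝ)) ω)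
      crit :=
    (integrable_const _).add ((integrable_const _).indicator (meas_AB ε N))
  have h1 : ∀ ω : Edg → Bool, ‖F (fun s => Xt N s ω) - F (fun s => Xn N s ω)‖ ≤
      K * ε + (AB ε N).indicator (fun _ => (1:ℝ)) ω := by
    intro ω
    rw [Real.norm_eq_abs]
    by_cases hω : ω ∈ AB ε N
    · rw [Set.indicator_of_mem hω]
      have h2 := hF.nn (fun s => Xt N s ω)
      have h3 := hF.le (fun s => Xt N s ω)
      have h4 := hF.nn (fun s => Xn N s ω)
      have h5 := hF.le (fun s => Xn N s ω)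
      have : 0 ≤ K * ε := by positivity
      rw [abs_le]
      constructor <;> linarith
    · rw [Set.indicator_of_notMem hω, add_zero, abs_sub_comm]
      exact cmp_trunc hI hF hε hN hω
  have h2 := norm_integral_le_of_norm_le hi (Eventually.of_forall h1)
  rw [integral_add (integrable_const _) ((integrable_const _).indicator (meas_AB ε N)),
    integral_indicator (meas_AB ε N)] at h2
  simpa using h2

/-- the means of the truncated functionals -/
theorem mean_Xt {Ω' : Type*} [MeasurableSpace Ω'] {P : Measure Ω'} [IsProbabilityMeasure P]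
    {B : ℝ≥0 → Ω' → ℝ} (hB : IsPreBrownianReal B P) {I : Finset ℝ≥0} (hI : ∀ s ∈ I, s ≤ 1)
    {F : (I → ℝ) → ℝ} {K A : ℝ} (hF : TF I F K A) :
    Tendsto (fun k => ∫ ω, F (fun s => Xt (nk k) s ω) ∂crit) atTop
      (𝓝 (∫ w, F (fun s : I => B s w) ∂P)) := by
  have hK := hF.K0
  have h1 : Tendsto (fun k => ∫ ω, F (fun s => Xn (nk k) s ω) ∂crit) atTop
      (𝓝 (∫ w, F (fun s : I => B s w) ∂P)) := (mean_Xn hB I hF.bcf).comp nk_tend
  have h2 : Tendsto (fun k => ∫ ω, F (fun s => Xt (nk k) s ω) ∂crit -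
      ∫ ω, F (fun s => Xn (nk k) s ω) ∂crit) atTop (𝓝 0) := by
    rw [Metric.tendsto_atTop']
    intro δ hδ
    obtain ⟨ε, hε⟩ : ∃ ε : ℝ, ε = δ / (4 * (K + 1)) := ⟨_, rfl⟩
    have hε0 : 0 < ε := by
      rw [hε]
      positivity
    have hKε : K * ε ≤ δ / 4 := by
      rw [hε, ← mul_div_assoc, div_le_div_iff₀ (by positivity) (by norm_num)]
      nlinarith
    have h3 : ∀ᶠ k : ℕ in atTop, (1:ℝ) * (1 / (k:ℝ) ^ 2) < δ / 2 := by
      have h4 := (summ 1).tendsto_atTop_zero
      exact h4.eventually_lt_const (half_pos hδ)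
    obtain ⟨k0, hk0⟩ := eventually_atTop.1 (((nk_tend.eventually (prob_AB hε0)).and
      (nk_tend.eventually_ge_atTop 2)).and (h3.and (eventually_ge_atTop 1)))
    refine ⟨k0, fun k hk => ?_⟩
    obtain ⟨⟨h4, h5⟩, h6, h7⟩ := hk0 k hk.le
    rw [Real.dist_eq, sub_zero]
    have h8 := int_close' hI hF hε0 h5
    have h9 := log_nk4 h7
    linarith
  have h3 := h2.add h1
  rw [zero_add] at h3
  exact h3.congr fun k => sub_add_cancel _ _

/-- convergence of the averages of a test function, for almost every configuration -/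
theorem avg_lim {Ω' : Type*} [MeasurableSpace Ω'] {P : Measure Ω'} [IsProbabilityMeasure P]
    {B : ℝ≥0 → Ω' → ℝ} (hB : IsPreBrownianReal B P) {I : Finset ℝ≥0} (hI : ∀ s ∈ I, s ≤ 1)
    {F : (I → ℝ) → ℝ} {K A : ℝ} (hF : TF I F K A) :
    ∀ᵐ ω ∂crit, Tendsto (fun n => av n (fun v => F (fun s => Xn n s (sh v ω)))) atTop
      (𝓝 (∫ w, F (fun s : I => B s w) ∂P)) := by
  have hK := hF.K0
  have hA := hF.A0
  have hvN := vN_pos
  have hcN := cN_pos
  have hB1 : ∀ᵐ ω ∂crit, ∀ j : ℕ, Tendsto (fun k => av (nk k) (fun v =>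
      (AB (1 / ((j:ℝ) + 1)) (nk k)).indicator (fun _ => (1:ℝ)) (sh v ω))) atTop (𝓝 0) :=
    ae_all_iff.2 fun j => rare_AB (by positivity)
  have hC1 : ∀ᵐ ω ∂crit, ∀ j : ℕ, Tendsto (fun k => av (nk k) (fun v =>
      (AC I (1 / ((j:ℝ) + 1)) (nk k) (nk (k + 1))).indicator (fun _ => (1:ℝ)) (sh v ω))) atTop
        (𝓝 0) :=
    ae_all_iff.2 fun j => rare_AC hI (by positivity)
  filter_upwards [hB1, hC1, conc_trunc hF hF.cont.measurable] with ω h1 h2 h3
  refine tend_of_blocks fun δ hδ => ?_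
  -- the parameters
  obtain ⟨j, hj⟩ := exists_nat_one_div_lt (show 0 < δ / (10 * (K + 1)) by positivity)
  obtain ⟨ε, hε⟩ : ∃ ε : ℝ, ε = 1 / ((j:ℝ) + 1) := ⟨_, rfl⟩
  have hε0 : 0 < ε := by rw [hε]; positivity
  have hε1 : ε ≤ 1 := by
    rw [hε, div_le_one (by positivity)]
    linarith [Nat.cast_nonneg (α := ℝ) j]
  have hKε : K * ε ≤ δ / 10 := by
    rw [← hε] at hj
    rw [lt_div_iff₀ (by positivity)] at hj
    nlinarith
  obtain ⟨t, ht⟩ : ∃ t : ℝ, t = min (1 / 2) (δ / (10 * ((K + 1) * (2 * A + 2)))) := ⟨_, rfl⟩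
  have ht0 : 0 < t := by
    rw [ht]
    exact lt_min (by norm_num) (by positivity)
  have ht1 : t ≤ 1 / 2 := by rw [ht]; exact min_le_left _ _
  have ht2 : K * (t * (2 * A + 2)) ≤ δ / 10 := by
    have : t ≤ δ / (10 * ((K + 1) * (2 * A + 2))) := by rw [ht]; exact min_le_right _ _
    rw [le_div_iff₀ (by positivity)] at this
    have h4 : 0 < t * (2 * A + 2) := by positivity
    nlinarith
  have h1j := (h1 j)
  have h2j := (h2 j)
  rw [← hε] at h1j h2j
  have hsq : Tendsto (fun N : ℕ => √(vN * log N)) atTop atTop :=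
    tendsto_sqrt_atTop.comp (tend_log.const_mul_atTop hvN)
  filter_upwards [h1j.eventually_lt_const (show (0:ℝ) < δ / 10 by positivity),
    h2j.eventually_lt_const (show (0:ℝ) < δ / 10 by positivity),
    h3.eventually (Metric.ball_mem_nhds (0:ℝ) (show (0:ℝ) < δ / 10 by positivity)),
    (mean_Xt hB hI hF).eventually (Metric.ball_mem_nhds _ (show (0:ℝ) < δ / 10 by positivity)),
    nk_tend.eventually_ge_atTop 2,
    nk_ratio (show (1:ℝ) < 1 + δ / 20 by linarith),
    nk_ratio (one_lt_two),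
    nk_tend.eventually (hsq.eventually_ge_atTop (cN * log 2 / ε)),
    nk_tend.eventually (tend_log.eventually_ge_atTop (log 2 / t))] with k g1 g2 g3 g4 g5 g6 g7 g8 g9
    n hn hn'
  have hN0 : (0:ℝ) < nk k := by exact_mod_cast nk_pos k
  have hN0' : (0:ℝ) < nk (k + 1) := by exact_mod_cast nk_pos (k + 1)
  have hNN : (nk k : ℝ) ≤ nk (k + 1) := by exact_mod_cast nk_mono (Nat.le_succ k)
  have hl : 0 < log (nk k : ℝ) := log_pos (by exact_mod_cast g5)
  have hl2 : log (nk (k + 1) : ℝ) ≤ log 2 + log (nk k) := by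
    rw [← log_mul (by norm_num) hN0.ne']
    exact log_le_log hN0' g7
  have hl3 : log (nk k : ℝ) ≤ log (nk (k + 1)) := log_le_log hN0 hNN
  have hc : cN * (log (nk (k + 1)) - log (nk k)) ≤ ε * √(vN * log (nk k)) := by
    rw [div_le_iff₀ hε0] at g8
    have : cN * (log (nk (k + 1)) - log (nk k)) ≤ cN * log 2 := by
      apply mul_le_mul_of_nonneg_left _ hcN.le
      linarith
    linarith
  have ha : 1 - t ≤ √(log (nk k) / log (nk (k + 1))) := by
    apply le_sqrt_of_sq_le
    rw [le_div_iff₀ (by linarith)]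
    rw [div_le_iff₀ ht0] at g9
    have h5 : (1 - t) ^ 2 ≤ 1 - t := by nlinarith
    have h6 : (1 - t) ^ 2 * log (nk (k + 1)) ≤ (1 - t) * (log 2 + log (nk k)) := by
      gcongr
      linarith
    nlinarith [log2_pos]
  -- the comparisons
  have c1 := vol_cmp (vb_mono hn) (card_vb_pos (nk k))
    (G := fun v => F (fun s => Xn n s (sh v ω))) (fun v => hF.nn _) (fun v => hF.le _)
  have c1' := vb_ratio (c := 1 + δ / 20) (by linarith) g6 hn'
  have hb : ∀ (S : Set (Edg → Bool)) (x : ℝ) (y y' : I → ℝ) (ω' : Edg → Bool), 0 ≤ x →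
      (ω' ∉ S → |F y - F y'| ≤ x) → |F y - F y'| ≤ x + S.indicator (fun _ => (1:ℝ)) ω' := by
    intro S x y y' ω' hx hS
    by_cases hω : ω' ∈ S
    · rw [Set.indicator_of_mem hω]
      have h2 := hF.nn y
      have h3 := hF.le y
      have h4 := hF.nn y'
      have h5 := hF.le y'
      rw [abs_le]
      constructor <;> linarith
    · rw [Set.indicator_of_notMem hω, add_zero]
      exact hS hω
  have c2 := avg_cmp (card_vb_pos (nk k)) (G := fun v => F (fun s => Xn n s (sh v ω)))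
    (H := fun v => F (fun s => Xn (nk k) s (sh v ω)))
    (U := fun v => (AC I ε (nk k) (nk (k + 1))).indicator (fun _ => (1:ℝ)) (sh v ω))
    (δ := K * ((1 - (1 - t)) * (2 * A + 2) + ε)) (fun v _ => hb _ _ _ _ _
      (by rw [sub_sub_cancel]; positivity)
      (fun hω => cmp_scale hI hF hε0 hε1 (by linarith) g5 hn hn' hc ha hω))
  have c3 := avg_cmp (card_vb_pos (nk k)) (G := fun v => F (fun s => Xn (nk k) s (sh v ω)))
    (H := fun v => F (fun s => Xt (nk k) s (sh v ω)))
    (U := fun v => (AB ε (nk k)).indicator (fun _ => (1:ℝ)) (sh v ω))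
    (δ := K * ε) (fun v _ => hb _ _ _ _ _ (by positivity)
      (fun hω => cmp_trunc hI hF hε0 g5 hω))
  have g3' := mem_ball_zero_iff.1 g3
  have g4' := Metric.mem_ball.1 g4
  rw [Real.norm_eq_abs] at g3'
  rw [Real.dist_eq] at g4'
  unfold av at g1 g2 g3' ⊢
  rw [sub_sub_cancel, mul_add] at c2
  rw [abs_le] at c1 c2 c3 ⊢
  rw [abs_lt] at g3' g4'
  constructor <;> linarith

/-- the empirical measure -/
noncomputable def emp {X : Type*} [MeasurableSpace X] (n : ℕ) (x : Vtx → X) : Measure X :=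
  ENNReal.ofReal (((vb n).card : ℝ)⁻¹) • ∑ v ∈ vb n, Measure.dirac (x v)

theorem emp_prob {X : Type*} [MeasurableSpace X] (n : ℕ) (x : Vtx → X) :
    IsProbabilityMeasure (emp n x) := by
  constructor
  unfold emp
  have h : ((vb n).card : ℝ) ≠ 0 := by
    have := card_vb_pos n
    exact_mod_cast this.ne'
  rw [Measure.smul_apply, Measure.finsetSum_apply]
  simp only [measure_univ, sum_const, nsmul_eq_mul, mul_one, smul_eq_mul]
  rw [← ENNReal.ofReal_natCast, ← ENNReal.ofReal_mul (by positivity), inv_mul_cancel₀ h,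
    ENNReal.ofReal_one]

theorem int_emp {X : Type*} [TopologicalSpace X] [MeasurableSpace X] [BorelSpace X]
    [SecondCountableTopology X] [T1Space X]
    (n : ℕ) (x : Vtx → X) (f : X →ᵇ ℝ) : ∫ y, f y ∂(emp n x) = av n (fun v => f (x v)) := by
  unfold emp av
  rw [integral_smul_measure, integral_finsetSum_measure]
  · simp only [integral_dirac]
    rw [ENNReal.toReal_ofReal (by positivity), smul_eq_mul, inv_mul_eq_div]
  · intro v _
    exact f.integrable _

/-- the empirical laws converge weakly, for almost every configuration -/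
theorem quenched {Ω' : Type*} [MeasurableSpace Ω'] {P : Measure Ω'} [IsProbabilityMeasure P]
    {B : ℝ≥0 → Ω' → ℝ} (hB : IsPreBrownianReal B P) {I : Finset ℝ≥0} (hI : ∀ s ∈ I, s ≤ 1) :
    ∀ᵐ ω ∂crit, ∀ f : (I → ℝ) →ᵇ ℝ,
      Tendsto (fun n => av n (fun v => f (fun s => Xn n s (sh v ω)))) atTop
        (𝓝 (∫ w, f (fun s : I => B s w) ∂P)) := by
  have hTF : ∀ (J : Finset (ℕ × ℕ)) (k : ℕ), ∃ A : ℝ,
      TF I (fun x => (Fb J k x : ℝ)) k A := by
    intro J k
    obtain ⟨A, hA, hs⟩ := Fb_supp J k (0 : I → ℝ)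
    exact ⟨A, fun x => NNReal.coe_nonneg _, fun x => by exact_mod_cast Fb_le J k x,
      Nat.cast_nonneg _, hA, fun x y => Fb_lip J k x y, fun x hx => by
        show (Fb J k x : ℝ) = 0
        rw [hs x hx]
        simp⟩
  have h1 : ∀ᵐ ω ∂crit, ∀ p : Finset (ℕ × ℕ) × ℕ,
      Tendsto (fun n => av n (fun v => (Fb p.1 p.2 (fun s : I => Xn n s (sh v ω)) : ℝ))) atTop
        (𝓝 (∫ w, (Fb p.1 p.2 (fun s : I => B s w) : ℝ) ∂P)) := by
    rw [ae_all_iff]
    intro p
    obtain ⟨A, hA⟩ := hTF p.1 p.2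
    have h := avg_lim (F := fun x : I → ℝ => (Fb p.1 p.2 x : ℝ)) hB hI hA
    exact h
  have hBm := (fdd_crit hB I).aemeasurable_limit
  filter_upwards [h1] with ω hω f
  obtain ⟨μ, hμ⟩ : ∃ μ : ProbabilityMeasure (I → ℝ), μ = ⟨P.map (fun w (s : I) => B s w),
    Measure.isProbabilityMeasure_map hBm⟩ := ⟨_, rfl⟩
  obtain ⟨ν, hν⟩ : ∃ ν : ℕ → ProbabilityMeasure (I → ℝ), ν = fun n =>
    ⟨emp n (fun v (s : I) => Xn n s (sh v ω)), emp_prob _ _⟩ := ⟨_, rfl⟩
  have hμi : ∀ g : (I → ℝ) →ᵇ ℝ, ∫ x, g x ∂(μ : Measure (I → ℝ)) =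
      ∫ w, g (fun s : I => B s w) ∂P := by
    intro g
    rw [hμ]
    exact integral_map hBm g.continuous.aestronglyMeasurable
  have hνi : ∀ (g : (I → ℝ) →ᵇ ℝ) (n : ℕ), ∫ x, g x ∂(ν n : Measure (I → ℝ)) =
      av n (fun v => g (fun s => Xn n s (sh v ω))) := by
    intro g n
    rw [hν]
    exact int_emp n _ g
  have h2 : Tendsto ν atTop (𝓝 μ) := by
    apply weak_of_Fb
    intro J k
    obtain ⟨A, hA⟩ := hTF J k
    have e1 := hμi hA.bcf
    have e2 := hνi hA.bcf
    have h3 := hω (J, k)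
    have e3 : ∫ x, (Fb J k x : ℝ) ∂(μ : Measure (I → ℝ)) =
        ∫ w, (Fb J k (fun s : I => B s w) : ℝ) ∂P := e1
    have e4 : ∀ n, ∫ x, (Fb J k x : ℝ) ∂(ν n : Measure (I → ℝ)) =
        av n (fun v => (Fb J k (fun s : I => Xn n s (sh v ω)) : ℝ)) := e2
    rw [e3]
    simp only [e4]
    exact h3
  have h3 := ProbabilityMeasure.tendsto_iff_forall_integral_tendsto.1 h2 f
  rw [hμi f] at h3
  exact h3.congr (hνi f)

end Pool.Agent.U154.QN
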