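import Pool.Agent.U154.QN.Gr

/-!
The subsequence `⌈exp √k⌉` and convergence along its blocks; almost sure convergence of averages.
-/

set_option autoImplicit false

namespace Pool.Agent.U154.QN

open H974 Finset Real Filter Topology MeasureTheory ProbabilityTheory Pool.Agent.W819.EN
  Pool.Agent.U154.NI
open Pool.Agent.H863R2.NL (cN vN)
open Pool.Agent.N956.PL (crit op op_inter crit_op meas_op)
open Pool.Agent.W605.EN (trl_bx bx_mono bx_disj)
open scoped NNReal ENNReal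

/-- the subsequence -/
noncomputable def nk (k : ℕ) : ℕ := ⌈exp √(k : ℝ)⌉₊

theorem nk_ge (k : ℕ) : exp √(k : ℝ) ≤ nk k := Nat.le_ceil _

theorem nk_pos (k : ℕ) : 1 ≤ nk k := by
  unfold nk
  exact Nat.one_le_ceil_iff.2 (exp_pos _)

theorem nk_le (k : ℕ) : (nk k : ℝ) ≤ exp √(k : ℝ) + 1 := (Nat.ceil_lt_add_one (exp_pos _).le).le

theorem nk_mono : Monotone nk := fun a b h => by
  unfold nk
  apply Nat.ceil_mono
  apply exp_le_exp.2
  apply sqrt_le_sqrt
  exact_mod_cast h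

theorem log_nk (k : ℕ) : √(k : ℝ) ≤ log (nk k) := by
  rw [le_log_iff_exp_le (by exact_mod_cast nk_pos k)]
  exact nk_ge k

theorem nk_tend : Tendsto nk atTop atTop := by
  refine tendsto_nat_ceil_atTop.comp (tendsto_exp_atTop.comp (tendsto_sqrt_atTop.comp
    tendsto_natCast_atTop_atTop))

theorem sqrt_gap : Tendsto (fun k : ℕ => √((k + 1 : ℕ) : ℝ) - √(k : ℝ)) atTop (𝓝 0) := by
  have h1 : Tendsto (fun k : ℕ => 1 / √(k : ℝ)) atTop (𝓝 0) :=
    tendsto_const_nhds.div_atTop (tendsto_sqrt_atTop.comp tendsto_natCast_atTop_atTop)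
  refine squeeze_zero' (Eventually.of_forall fun k => ?_) ?_ h1
  · apply sub_nonneg.2
    apply sqrt_le_sqrt
    push_cast
    linarith
  · filter_upwards [eventually_gt_atTop 0] with k hk
    have hk' : (0:ℝ) < √(k:ℝ) := sqrt_pos.2 (by exact_mod_cast hk)
    rw [le_div_iff₀ hk']
    have h2 : √((k + 1 : ℕ) : ℝ) ^ 2 = k + 1 := by
      rw [sq_sqrt (by positivity)]
      push_cast
      ring
    have h3 : √(k : ℝ) ^ 2 = k := sq_sqrt (by positivity)
    have h4 : √(k:ℝ) ≤ √((k + 1 : ℕ) : ℝ) := by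
      apply sqrt_le_sqrt
      push_cast
      linarith
    nlinarith

/-- consecutive terms have ratio close to one -/
theorem nk_ratio {c : ℝ} (hc : 1 < c) : ∀ᶠ k : ℕ in atTop, (nk (k + 1) : ℝ) ≤ c * nk k := by
  have h1 : Tendsto (fun k : ℕ => exp (√((k + 1 : ℕ) : ℝ) - √(k : ℝ)) + exp (-√(k : ℝ))) atTop
      (𝓝 (exp 0 + 0)) := by
    refine ((continuous_exp.tendsto 0).comp sqrt_gap).add ?_
    exact tendsto_exp_neg_atTop_nhds_zero.comp (tendsto_sqrt_atTop.comp
      tendsto_natCast_atTop_atTop)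
  rw [exp_zero, add_zero] at h1
  filter_upwards [h1.eventually_le_const hc] with k hk
  have h2 := nk_le (k + 1)
  have h3 := nk_ge k
  have h4 : exp √((k + 1 : ℕ) : ℝ) + 1 =
      (exp (√((k + 1 : ℕ) : ℝ) - √(k : ℝ)) + exp (-√(k : ℝ))) * exp √(k : ℝ) := by
    rw [add_mul, ← exp_add, ← exp_add, sub_add_cancel, neg_add_cancel, exp_zero]
  rw [h4] at h2
  refine h2.trans ?_
  refine (mul_le_mul_of_nonneg_right hk (exp_pos _).le).trans ?_
  exact mul_le_mul_of_nonneg_left h3 (by linarith)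

/-- convergence along the blocks -/
theorem tend_of_blocks {g : ℕ → ℝ} {L : ℝ} (h : ∀ δ : ℝ, 0 < δ → ∀ᶠ k : ℕ in atTop, ∀ n : ℕ,
    nk k ≤ n → n ≤ nk (k + 1) → |g n - L| ≤ δ) : Tendsto g atTop (𝓝 L) := by
  rw [Metric.tendsto_atTop']
  intro δ hδ
  obtain ⟨K, hK⟩ := eventually_atTop.1 (h (δ / 2) (half_pos hδ))
  have ht : Tendsto (fun n : ℕ => ⌊log (n : ℝ) ^ 2⌋₊) atTop atTop :=
    tendsto_nat_floor_atTop.comp ((tendsto_pow_atTop two_ne_zero).comp tend_log)
  obtain ⟨N, hN⟩ := eventually_atTop.1 ((ht.eventually_ge_atTop K).and (eventually_ge_atTop 1))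
  refine ⟨N, fun n hn => ?_⟩
  obtain ⟨h1, h2⟩ := hN n hn.le
  have hn0 : (0:ℝ) < n := by exact_mod_cast h2
  have hl : 0 ≤ log (n:ℝ) := log_nonneg (by exact_mod_cast h2)
  have h3 : nk ⌊log (n : ℝ) ^ 2⌋₊ ≤ n := by
    unfold nk
    rw [Nat.ceil_le]
    rw [← le_log_iff_exp_le hn0]
    rw [sqrt_le_left hl]
    exact Nat.floor_le (by positivity)
  have h4 : n ≤ nk (⌊log (n : ℝ) ^ 2⌋₊ + 1) := by
    have h5 := Nat.lt_floor_add_one (log (n : ℝ) ^ 2)
    have h6 : log (n:ℝ) ≤ √((⌊log (n : ℝ) ^ 2⌋₊ + 1 : ℕ) : ℝ) := by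
      apply le_sqrt_of_sq_le
      push_cast
      exact h5.le
    have h7 : (n:ℝ) ≤ nk (⌊log (n : ℝ) ^ 2⌋₊ + 1) := by
      refine le_trans ?_ (nk_ge _)
      rw [← log_le_iff_le_exp hn0]
      exact h6
    exact_mod_cast h7
  have h8 := hK _ h1 n h3 h4
  rw [Real.dist_eq]
  linarith

/-- nonnegative functions with summable integrals converge to zero almost surely -/
theorem ae_zero {f : ℕ → (Edg → Bool) → ℝ} (hm : ∀ k, Measurable (f k)) (h0 : ∀ k ω, 0 ≤ f k ω)
    (hi : ∀ k, Integrable (f k) crit) {c : ℕ → ℝ} (hc : Summable c)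
    (h : ∀ᶠ k in atTop, ∫ ω, f k ω ∂crit ≤ c k) :
    ∀ᵐ ω ∂crit, Tendsto (fun k => f k ω) atTop (𝓝 0) := by
  obtain ⟨k0, hk0⟩ := eventually_atTop.1 h
  have hc' : Summable (fun k => c (k + k0)) := (summable_nat_add_iff k0).2 hc
  have h1 : ∫⁻ ω, ∑' k, ENNReal.ofReal (f (k + k0) ω) ∂crit ≠ ∞ := by
    rw [lintegral_tsum fun k => (hm _).ennreal_ofReal.aemeasurable]
    have h2 : ∀ k, ∫⁻ ω, ENNReal.ofReal (f (k + k0) ω) ∂crit ≤ ENNReal.ofReal (c (k + k0)) := by
      intro k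
      rw [← ofReal_integral_eq_lintegral_ofReal (hi _) (Eventually.of_forall (h0 _))]
      exact ENNReal.ofReal_le_ofReal (hk0 _ (by omega))
    refine ne_top_of_le_ne_top ?_ (ENNReal.tsum_le_tsum h2)
    have h3 : ∀ k, ENNReal.ofReal (c (k + k0)) = ((Real.toNNReal (c (k + k0)) : ℝ≥0) : ℝ≥0∞) :=
      fun k => rfl
    simp only [h3]
    exact ENNReal.tsum_coe_ne_top_iff_summable.2 hc'.toNNReal
  have h2 := ae_lt_top' (AEMeasurable.ennreal_tsum fun k => (hm (k + k0)).ennreal_ofReal.aemeasurable)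
    h1
  filter_upwards [h2] with ω hω
  have h3 := ENNReal.tendsto_atTop_zero_of_tsum_ne_top hω.ne
  have h4 := (ENNReal.tendsto_toReal ENNReal.zero_ne_top).comp h3
  rw [ENNReal.toReal_zero] at h4
  rw [← tendsto_add_atTop_iff_nat k0]
  refine h4.congr fun k => ?_
  show (ENNReal.ofReal (f (k + k0) ω)).toReal = f (k + k0) ω
  exact ENNReal.toReal_ofReal (h0 _ _)

theorem meas_ind_sh {A : Set (Edg → Bool)} (hA : MeasurableSet A) (v : Vtx) :
    Measurable (fun ω : Edg → Bool => A.indicator (fun _ => (1:ℝ)) (sh v ω)) :=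
  (measurable_const.indicator hA).comp (meas_sh v)

/-- averages of rare events -/
theorem avg_ind_zero {A : ℕ → Set (Edg → Bool)} (hA : ∀ k, MeasurableSet (A k)) {c : ℕ → ℝ}
    (hc : Summable c) (h : ∀ᶠ k in atTop, crit.real (A k) ≤ c k) (V : ℕ → Finset Vtx) :
    ∀ᵐ ω ∂crit, Tendsto (fun k =>
      (∑ v ∈ V k, (A k).indicator (fun _ => (1:ℝ)) (sh v ω)) / (V k).card) atTop (𝓝 0) := by
  have hb : ∀ k (ω : Edg → Bool), 0 ≤ (A k).indicator (fun _ => (1:ℝ)) ω ∧
      (A k).indicator (fun _ => (1:ℝ)) ω ≤ 1 := by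
    intro k ω
    by_cases hω : ω ∈ A k
    · simp [hω]
    · simp [hω]
  refine ae_zero (fun k => (Finset.measurable_sum _ fun v _ => meas_ind_sh (hA k) v).div_const _)
    (fun k ω => ?_) (fun k => ?_) hc ?_
  · exact div_nonneg (sum_nonneg fun v _ => (hb k _).1) (Nat.cast_nonneg _)
  · apply Integrable.div_const
    exact integrable_finsetSum _ fun v _ => int_bd (meas_ind_sh (hA k) v) (C := 1)
      fun ω => by rw [abs_of_nonneg (hb k _).1]; exact (hb k _).2
  · filter_upwards [h] with k hk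
    refine le_trans ?_ hk
    rw [integral_div, integral_finsetSum _ fun v _ => int_bd (meas_ind_sh (hA k) v) (C := 1)
      fun ω => by rw [abs_of_nonneg (hb k _).1]; exact (hb k _).2]
    have e1 : ∀ v ∈ V k, ∫ ω, (A k).indicator (fun _ => (1:ℝ)) (sh v ω) ∂crit =
        crit.real (A k) := by
      intro v _
      rw [int_sh v (measurable_const.indicator (hA k)), integral_indicator (hA k)]
      simp
    rw [Finset.sum_congr rfl e1, Finset.sum_const, nsmul_eq_mul]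
    rcases Nat.eq_zero_or_pos (V k).card with h0 | h0
    · rw [h0]
      simp
    · rw [mul_div_assoc, mul_div_cancel₀]
      exact_mod_cast h0.ne'

open Classical in
/-- averages of local functions -/
theorem avg_loc_zero (V : ℕ → Finset Vtx) (hV : ∀ k, 0 < (V k).card) (R : ℕ → ℕ)
    (f : ℕ → Vtx → Finset Edg → ℝ) {m D c : ℕ → ℝ} (hf : ∀ k v F, |f k v F| ≤ 1)
    (hm : ∀ k, ∀ v ∈ V k, ∫ ω, f k v (op (bx v (R k)) ω) ∂crit = m k)
    (hD : ∀ k, ∀ v ∈ V k, (((V k).filter (fun w => Near (R k) v w)).card : ℝ) ≤ D k)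
    (hc : Summable c) (h : ∀ᶠ k in atTop, 4 * D k / (V k).card ≤ c k) :
    ∀ᵐ ω ∂crit, Tendsto (fun k =>
      (∑ v ∈ V k, f k v (op (bx v (R k)) ω)) / (V k).card - m k) atTop (𝓝 0) := by
  obtain ⟨g, hg⟩ : ∃ g : ℕ → (Edg → Bool) → ℝ, g = fun k ω =>
    ((∑ v ∈ V k, f k v (op (bx v (R k)) ω)) / (V k).card - m k) ^ 2 := ⟨_, rfl⟩
  have hV' : ∀ k, (0:ℝ) < (V k).card := fun k => by exact_mod_cast hV k
  have hgm : ∀ k, Measurable (g k) := by
    intro k
    rw [hg]
    exact (((Finset.measurable_sum _ fun v _ => meas_fop _ _).div_const _).sub_const _).pow_const 2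
  have hge : ∀ k ω, g k ω =
      (∑ v ∈ V k, (f k v (op (bx v (R k)) ω) - m k)) ^ 2 / ((V k).card : ℝ) ^ 2 := by
    intro k ω
    rw [hg]
    simp only
    rw [Finset.sum_sub_distrib, Finset.sum_const, nsmul_eq_mul, ← div_pow]
    congr 1
    have := hV' k
    field_simp
  have hgb : ∀ k ω, |g k ω| ≤ (1 + |m k|) ^ 2 := by
    intro k ω
    rw [hg]
    simp only
    rw [abs_pow]
    apply pow_le_pow_left₀ (abs_nonneg _)
    refine (abs_sub _ _).trans ?_
    gcongr
    rw [abs_div, abs_of_pos (hV' k), div_le_one (hV' k)]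
    refine (abs_sum_le_sum_abs _ _).trans ?_
    refine (sum_le_sum fun v _ => hf k v _).trans ?_
    rw [sum_const, nsmul_eq_mul, mul_one]
  have h1 : ∀ᵐ ω ∂crit, Tendsto (fun k => g k ω) atTop (𝓝 0) := by
    refine ae_zero hgm (fun k ω => ?_) (fun k => int_bd (hgm k) (hgb k)) hc ?_
    · rw [hg]
      positivity
    · filter_upwards [h] with k hk
      refine le_trans ?_ hk
      have h2 := second_moment (V k) (R k) (f k) (hf k) (hm k) (hD k)
      simp only [hge k]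
      rw [integral_div, div_le_div_iff₀ (pow_pos (hV' k) 2) (hV' k)]
      calc _ ≤ (4 * D k * (V k).card) * (V k).card := mul_le_mul_of_nonneg_right h2 (hV' k).le
        _ = _ := by ring
  filter_upwards [h1] with ω hω
  rw [hg] at hω
  have h3 := hω.sqrt
  rw [sqrt_zero] at h3
  rw [tendsto_zero_iff_abs_tendsto_zero]
  refine h3.congr fun k => ?_
  simp only [Function.comp]
  exact sqrt_sq_eq_abs _

end Pool.Agent.U154.QN
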