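import Pool.Agent.U154.NI.Inc2
import Pool.Agent.W605.EN.Sec1
import Pool.Agent.W819.EN.Layers

/-!
The number of layers around an arbitrary vertex: translation invariance, locality and the tail of
its growth between comparable distances.
-/

set_option autoImplicit false

namespace Pool.Agent.U154.QN

open H974 Finset Real Filter Topology MeasureTheory ProbabilityTheory Pool.Agent.W819.EN
  Pool.Agent.U154.NI
open Pool.Agent.H863R2.NL (cN vN)
open Pool.Agent.N956.PL (crit op op_inter crit_op meas_op)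
open Pool.Agent.W605.EN (trl_bx bx_mono bx_disj)
open scoped NNReal ENNReal

/-- the translated configuration -/
def sh (v : Vtx) (ω : Edg → Bool) : Edg → Bool := fun e => ω ((trl v.1 v.2).φ e)

theorem meas_sh (v : Vtx) : Measurable (sh v) :=
  measurable_pi_lambda _ fun e => measurable_pi_apply _

theorem map_sh (v : Vtx) : crit.map (sh v) = crit := by
  classical
  unfold crit
  refine Measure.eq_infinitePi _ fun s t ht => ?_
  rw [Measure.map_apply (meas_sh v) (MeasurableSet.pi s.countable_toSet fun i _ => ht i)]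
  obtain ⟨t', ht'⟩ : ∃ t' : Edg → Set Bool, ∀ e, t' ((trl v.1 v.2).φ e) = t e :=
    ⟨fun g => t ((trl v.1 v.2).φ.symm g), fun e => by simp only [Equiv.symm_apply_apply]⟩
  have e1 : (sh v) ⁻¹' (Set.pi (↑s) t) =
      Set.pi (↑(s.image (trl v.1 v.2).φ)) t' := by
    ext ω
    simp only [Set.mem_preimage, Set.mem_pi, Finset.mem_coe, Finset.mem_image,
      forall_exists_index, and_imp, forall_apply_eq_imp_iff₂, ht']
    rfl
  rw [e1, Measure.infinitePi_pi _ (fun _ _ => MeasurableSet.of_discrete),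
    Finset.prod_image (trl v.1 v.2).φ.injective.injOn]
  refine Finset.prod_congr rfl fun e _ => ?_
  rw [ht']

theorem int_sh (v : Vtx) {f : (Edg → Bool) → ℝ} (hf : Measurable f) :
    ∫ ω, f (sh v ω) ∂crit = ∫ ω, f ω ∂crit := by
  have h := integral_map (μ := crit) (meas_sh v).aemeasurable
    (f := f) hf.aestronglyMeasurable
  rw [map_sh] at h
  exact h.symm

theorem real_sh (v : Vtx) {A : Set (Edg → Bool)} (hA : MeasurableSet A) :
    crit.real {ω | sh v ω ∈ A} = crit.real A := by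
  have h : crit.map (sh v) A = crit {ω | sh v ω ∈ A} := Measure.map_apply (meas_sh v) hA
  rw [measureReal_def, measureReal_def, ← h, map_sh]

theorem op_sh (v : Vtx) (m : ℕ) (ω : Edg → Bool) :
    op (bx v m) ω = (trl v.1 v.2).mp (op (boxE m) (sh v ω)) := by
  ext e
  rw [LSym.mem_mp]
  unfold op
  rw [Finset.mem_filter, Finset.mem_filter, ← trl_bx v (m : ℤ), LSym.mem_mp, bx_eq]
  have : sh v ω ((trl v.1 v.2).φ.symm e) = ω e := by
    unfold sh
    rw [Equiv.apply_symm_apply]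
  rw [this]

/-- the number of layers around `v` up to the distance `m` -/
noncomputable def Lv (v : Vtx) (m : ℕ) (ω : Edg → Bool) : ℕ := NA (op (bx v m) ω) v 0 m

theorem Lv_sh (v : Vtx) (m : ℕ) (ω : Edg → Bool) : Lv v m ω = Lw (sh v ω) m := by
  unfold Lv
  rw [op_sh]
  have h := geo.tr (op (boxE m) (sh v ω)) v (0, 0) 0 m
  rw [zero_add, zero_add] at h
  exact h

theorem layers_Lv (n : ℕ) (v : Vtx) (ω : sqLattice.edgeSet → Bool) :
    layers n v ω = Lv v n (fun e => ω (toE e)) := by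
  rw [layers_eq]
  rfl

theorem meas_Lv (v : Vtx) (m : ℕ) : Measurable (Lv v m) := by
  have : Lv v m = (fun ω => Lw ω m) ∘ sh v := by
    funext ω
    exact Lv_sh v m ω
  rw [this]
  exact (meas_Lw m).comp (meas_sh v)

theorem Lv_loc {v : Vtx} {m : ℕ} {S : Finset Edg} (h : bx v m ⊆ S) (ω : Edg → Bool) :
    NA (op S ω) v 0 m = Lv v m ω := by
  unfold Lv
  rw [geo.loc (op S ω) v 0 m (Nat.zero_le _), geo.loc (op (bx v m) ω) v 0 m (Nat.zero_le _),
    ← op_inter h ω, inter_assoc]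
  congr 2
  have : an v 0 m ⊆ bx v m := sdiff_subset
  rw [inter_eq_right.2 this]

theorem Lv_mono (v : Vtx) {m M : ℕ} (h : m ≤ M) (ω : Edg → Bool) : Lv v m ω ≤ Lv v M ω := by
  rw [Lv_sh, Lv_sh]
  exact Lw_mono h _

theorem Lw_eq (ω : Edg → Bool) (m : ℕ) : Lw ω m = Lv (0, 0) m ω := by
  unfold Lw Lv
  rw [bx_eq]

/-- one step of the growth -/
theorem step {b κ : ℕ} (hb : 1 ≤ b) {F : Finset Edg} (h : Lnk (0, 0) b κ F) :
    NA F (0, 0) 0 (8 * b) ≤ NA F (0, 0) 0 (2 * b) + (2 + 10 * κ) := by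
  obtain ⟨c1, _, c3⟩ := h
  have e1 := Pool.Agent.W38.EN.t_CIR0 F (0, 0) b κ 0 (8 * b) hb (Nat.zero_le _) (by omega) c1
  have e2 := Pool.Agent.W38.EN.t_RAD F (0, 0) b κ hb c3
  omega

theorem steps {b κ : ℕ} (hb : 1 ≤ b) {F : Finset Edg} (j : ℕ)
    (h : ∀ i < j, Lnk (0, 0) (4 ^ i * b) κ F) :
    NA F (0, 0) 0 (2 * (4 ^ j * b)) ≤ NA F (0, 0) 0 (2 * b) + j * (2 + 10 * κ) := by
  induction j with
  | zero => simp
  | succ j ih =>
    have h1 := ih (fun i hi => h i (by omega))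
    have h2 := step (b := 4 ^ j * b) (κ := κ) (F := F)
      (Nat.mul_pos (by positivity) hb) (h j (by omega))
    have e : 8 * (4 ^ j * b) = 2 * (4 ^ (j + 1) * b) := by
      rw [pow_succ]
      ring
    rw [e] at h2
    have e2 : (j + 1) * (2 + 10 * κ) = j * (2 + 10 * κ) + (2 + 10 * κ) := by ring
    omega

/-- few layers between comparable distances -/
theorem growth : ∃ C : ℝ, 0 < C ∧ ∀ (m M J κ : ℕ), 1 ≤ m → m ≤ M → M ≤ 4 ^ J * m →
    crit.real {ω | Lv (0, 0) m ω + (4 + (J + 1) * (2 + 10 * κ)) < Lv (0, 0) M ω} ≤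
      ((J : ℝ) + 1) * (C * (1 / 2) ^ κ) := by
  obtain ⟨C, hC, hL⟩ := ltl (1 / 2) (by norm_num)
  refine ⟨C, hC, fun m M J κ hm hmM hMJ => ?_⟩
  obtain ⟨b, hb⟩ : ∃ b : ℕ, b = max 1 (m / 2) := ⟨_, rfl⟩
  have hb1 : 1 ≤ b := by rw [hb]; exact le_max_left _ _
  have hb2 : 2 * b ≤ max 2 m := by omega
  have hb3 : m ≤ 8 * b := by omega
  obtain ⟨N, hN⟩ : ∃ N : ℕ, N = 8 * (4 ^ J * b) := ⟨_, rfl⟩
  have hMN : M ≤ N := by
    rw [hN]
    calc M ≤ 4 ^ J * m := hMJ
      _ ≤ 4 ^ J * (8 * b) := Nat.mul_le_mul_left _ hb3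
      _ = 8 * (4 ^ J * b) := by ring
  have hbN : 8 * b ≤ N := by
    rw [hN]
    apply Nat.mul_le_mul_left
    exact Nat.le_mul_of_pos_left b (by positivity)
  -- the bad event
  have hbad : Pr P2 (boxE N) (fun F => ∃ j ∈ range (J + 1), ¬ Lnk (0, 0) (4 ^ j * b) κ F) ≤
      ∑ j ∈ range (J + 1), C * (1 / 2) ^ κ := by
    refine (Pr_exists_le hok (boxE N) (range (J + 1))
      (fun j F => ¬ Lnk (0, 0) (4 ^ j * b) κ F)).trans (sum_le_sum fun j hj => ?_)
    refine hL (4 ^ j * b) (0, 0) (boxE N) (Nat.mul_pos (by positivity) hb1) ?_ κ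
    have e1 : (8 * ((4 ^ j * b : ℕ) : ℤ)) = ((8 * (4 ^ j * b) : ℕ) : ℤ) := by push_cast; ring
    rw [e1, bx_eq]
    apply boxE_mono
    rw [hN]
    apply Nat.mul_le_mul_left
    apply Nat.mul_le_mul_right
    exact Nat.pow_le_pow_right (by norm_num) (by rw [mem_range] at hj; omega)
  rw [sum_const, card_range, nsmul_eq_mul] at hbad
  push_cast at hbad
  refine le_trans ?_ hbad
  rw [← crit_real]
  apply measureReal_mono _ (by finiteness)
  intro ω hω
  by_contra hcon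
  simp only [Set.mem_ofPred_eq, not_exists, not_and, not_not] at hω hcon
  have h1 := steps (b := b) (κ := κ) hb1 (F := op (boxE N) ω) (J + 1)
    (fun i hi => hcon i (mem_range.2 hi))
  have e2 : 2 * (4 ^ (J + 1) * b) = N := by
    rw [hN, pow_succ]
    ring
  rw [e2] at h1
  have hsub : ∀ k : ℕ, k ≤ N → bx (0, 0) (k : ℤ) ⊆ boxE N := fun k hk => by
    rw [bx_eq]
    exact boxE_mono hk
  rw [Lv_loc (hsub N le_rfl), Lv_loc (m := 2 * b) (hsub (2 * b) (by omega))] at h1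
  have h2 := Lv_mono (0, 0) hMN ω
  have h3 : Lv (0, 0) (2 * b) ω ≤ Lv (0, 0) m ω + 4 := by
    by_cases hm2 : 2 ≤ m
    · have := Lv_mono (0, 0) (show 2 * b ≤ m by omega) ω
      omega
    · have hb' : b = 1 := by omega
      have := geo.le (op (bx (0, 0) ((2 * b : ℕ) : ℤ)) ω) (0, 0) 0 (2 * b)
      unfold Lv
      rw [hb'] at this ⊢
      omega
  omega

end Pool.Agent.U154.QN
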