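import Pool.Agent.U154.QN.Sh

/-!
Averages over the vertices of functions of the configuration in boxes around the vertices.
-/

set_option autoImplicit false

namespace Pool.Agent.U154.QN

open H974 Finset Real Filter Topology MeasureTheory ProbabilityTheory Pool.Agent.W819.EN
  Pool.Agent.U154.NI
open Pool.Agent.H863R2.NL (cN vN)
open Pool.Agent.N956.PL (crit op op_inter crit_op meas_op)
open Pool.Agent.W605.EN (trl_bx bx_mono bx_disj)
open scoped NNReal ENNReal

theorem meas_fop (S : Finset Edg) (f : Finset Edg → ℝ) :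
    Measurable (fun ω : Edg → Bool => f (op S ω)) := by
  letI : MeasurableSpace (Finset Edg) := ⊤
  have hm : Measurable (op S) := fun A _ => meas_op S (fun F => F ∈ A)
  exact measurable_from_top.comp hm

/-- the configurations in disjoint finite sets are independent -/
theorem indep_real {S T : Finset Edg} (h : Disjoint S T) (f g : Finset Edg → ℝ) :
    ∫ ω, f (op S ω) * g (op T ω) ∂crit =
      (∫ ω, f (op S ω) ∂crit) * ∫ ω, g (op T ω) ∂crit := by
  have h1 := indep_op h (fun F => (f F : ℂ)) (fun F => (g F : ℂ))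
  have e1 : ∀ ω : Edg → Bool, (f (op S ω) : ℂ) * (g (op T ω) : ℂ) =
      ((f (op S ω) * g (op T ω) : ℝ) : ℂ) := fun ω => by push_cast; ring
  simp only [e1] at h1
  rw [integral_complex_ofReal, integral_complex_ofReal, integral_complex_ofReal] at h1
  exact_mod_cast h1

theorem int_bd {f : (Edg → Bool) → ℝ} (hf : Measurable f) {C : ℝ} (h : ∀ ω, |f ω| ≤ C) :
    Integrable f crit :=
  Integrable.of_bound hf.aestronglyMeasurable C (Eventually.of_forall h)

theorem int_le {f : (Edg → Bool) → ℝ} (hf : Measurable f) {C : ℝ} (h : ∀ ω, |f ω| ≤ C) :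
    |∫ ω, f ω ∂crit| ≤ C := by
  have h1 := norm_integral_le_of_norm_le_const (μ := crit) (f := f) (C := C)
    (Eventually.of_forall h)
  simpa using h1

/-- the two boxes are close -/
def Near (R : ℕ) (v w : Vtx) : Prop := ¬ (2 * (R : ℤ) < |v.1 - w.1| ∨ 2 * (R : ℤ) < |v.2 - w.2|)

open Classical in
theorem second_moment (V : Finset Vtx) (R : ℕ) (f : Vtx → Finset Edg → ℝ) {m D : ℝ}
    (hf : ∀ v F, |f v F| ≤ 1) (hm : ∀ v ∈ V, ∫ ω, f v (op (bx v R) ω) ∂crit = m)
    (hD : ∀ v ∈ V, ((V.filter (fun w => Near R v w)).card : ℝ) ≤ D) :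
    ∫ ω, (∑ v ∈ V, (f v (op (bx v R) ω) - m)) ^ 2 ∂crit ≤ 4 * D * V.card := by
  rcases V.eq_empty_or_nonempty with hV | ⟨v0, hv0⟩
  · subst hV
    simp
  have hm1 : |m| ≤ 1 := by
    rw [← hm v0 hv0]
    exact int_le (meas_fop _ _) fun ω => hf v0 _
  obtain ⟨Z, hZ⟩ : ∃ Z : Vtx → Finset Edg → ℝ, Z = fun v F => f v F - m := ⟨_, rfl⟩
  have hZb : ∀ v F, |Z v F| ≤ 2 := by
    intro v F
    rw [hZ]
    have := abs_sub (f v F) m
    have := hf v F
    show |f v F - m| ≤ 2
    linarith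
  have hZm : ∀ v ∈ V, ∫ ω, Z v (op (bx v R) ω) ∂crit = 0 := by
    intro v hv
    rw [hZ]
    show ∫ ω, (f v (op (bx v R) ω) - m) ∂crit = 0
    rw [integral_sub (int_bd (meas_fop _ _) fun ω => hf v _) (integrable_const _), hm v hv]
    simp
  have hprod : ∀ v w : Vtx, Measurable (fun ω : Edg → Bool =>
      Z v (op (bx v R) ω) * Z w (op (bx w R) ω)) := fun v w =>
    (meas_fop _ _).mul (meas_fop _ _)
  have hpb : ∀ (v w : Vtx) (ω : Edg → Bool), |Z v (op (bx v R) ω) * Z w (op (bx w R) ω)| ≤ 4 := by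
    intro v w ω
    rw [abs_mul]
    have h1 := hZb v (op (bx v R) ω)
    have h2 := hZb w (op (bx w R) ω)
    have h3 := abs_nonneg (Z w (op (bx w R) ω))
    have h4 := abs_nonneg (Z v (op (bx v R) ω))
    nlinarith
  have e1 : ∀ ω : Edg → Bool, (∑ v ∈ V, (f v (op (bx v R) ω) - m)) ^ 2 =
      ∑ v ∈ V, ∑ w ∈ V, Z v (op (bx v R) ω) * Z w (op (bx w R) ω) := by
    intro ω
    rw [hZ, sq, Finset.sum_mul_sum]
  simp only [e1]
  rw [integral_finsetSum _ fun v _ => integrable_finsetSum _ fun w _ =>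
    int_bd (hprod v w) (hpb v w)]
  have h2 : ∀ v ∈ V, ∫ ω, ∑ w ∈ V, Z v (op (bx v R) ω) * Z w (op (bx w R) ω) ∂crit ≤ 4 * D := by
    intro v hv
    rw [integral_finsetSum _ fun w _ => int_bd (hprod v w) (hpb v w)]
    have h3 : ∀ w ∈ V, ∫ ω, Z v (op (bx v R) ω) * Z w (op (bx w R) ω) ∂crit ≤
        if Near R v w then 4 else 0 := by
      intro w hw
      by_cases hn : Near R v w
      · rw [if_pos hn]
        exact (le_abs_self _).trans (int_le (hprod v w) (hpb v w))
      · rw [if_neg hn]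
        unfold Near at hn
        rw [not_not] at hn
        rw [indep_real (bx_disj hn) (Z v) (Z w), hZm v hv, zero_mul]
    refine (sum_le_sum h3).trans ?_
    rw [← Finset.sum_filter, Finset.sum_const, nsmul_eq_mul, mul_comm]
    exact mul_le_mul_of_nonneg_left (hD v hv) (by norm_num)
  refine (sum_le_sum h2).trans (le_of_eq ?_)
  rw [Finset.sum_const, nsmul_eq_mul]
  ring

open Classical in
/-- Chebyshev's inequality -/
theorem cheb (V : Finset Vtx) (R : ℕ) (f : Vtx → Finset Edg → ℝ) {m D η : ℝ} (hη : 0 < η)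
    (hV : 0 < V.card)
    (hf : ∀ v F, |f v F| ≤ 1) (hm : ∀ v ∈ V, ∫ ω, f v (op (bx v R) ω) ∂crit = m)
    (hD : ∀ v ∈ V, ((V.filter (fun w => Near R v w)).card : ℝ) ≤ D) :
    crit.real {ω | η ≤ |(∑ v ∈ V, f v (op (bx v R) ω)) / V.card - m|} ≤
      4 * D / (V.card * η ^ 2) := by
  have h1 := second_moment V R f hf hm hD
  have hV' : (0:ℝ) < V.card := by exact_mod_cast hV
  obtain ⟨g, hg⟩ : ∃ g : (Edg → Bool) → ℝ, g = fun ω => (∑ v ∈ V, (f v (op (bx v R) ω) - m)) ^ 2 :=
    ⟨_, rfl⟩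
  have hgm : Measurable g := by
    rw [hg]
    exact (Finset.measurable_sum _ fun v _ => (meas_fop _ _).sub_const _).pow_const 2
  have hgi : Integrable g crit := by
    refine Integrable.of_bound hgm.aestronglyMeasurable ((∑ v ∈ V, (1 + |m|)) ^ 2)
      (Eventually.of_forall fun ω => ?_)
    rw [hg]
    simp only [norm_pow]
    apply pow_le_pow_left₀ (norm_nonneg _)
    refine (norm_sum_le _ _).trans (sum_le_sum fun v _ => ?_)
    have h4 := abs_sub (f v (op (bx v R) ω)) m
    have h3 := hf v (op (bx v R) ω)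
    rw [Real.norm_eq_abs]
    linarith
  have h2 := mul_meas_ge_le_integral_of_nonneg (μ := crit) (f := g)
    (Eventually.of_forall fun ω => by rw [hg]; positivity) hgi ((η * V.card) ^ 2)
  have e1 : {ω | η ≤ |(∑ v ∈ V, f v (op (bx v R) ω)) / V.card - m|} =
      {ω | (η * V.card) ^ 2 ≤ g ω} := by
    ext ω
    simp only [Set.mem_ofPred_eq]
    have e2 : ∑ v ∈ V, (f v (op (bx v R) ω) - m) =
        ((∑ v ∈ V, f v (op (bx v R) ω)) / V.card - m) * V.card := by
      rw [Finset.sum_sub_distrib, Finset.sum_const, nsmul_eq_mul]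
      field_simp
    rw [hg]
    simp only
    rw [e2, ← sq_abs (((∑ v ∈ V, f v (op (bx v R) ω)) / V.card - m) * V.card), abs_mul,
      abs_of_pos hV', sq_le_sq₀ (by positivity) (by positivity)]
    rw [mul_le_mul_iff_left₀ hV']
  rw [e1, le_div_iff₀ (by positivity)]
  have h3 : crit.real {ω | (η * V.card) ^ 2 ≤ g ω} * ((η * V.card) ^ 2) ≤ 4 * D * V.card := by
    rw [mul_comm]
    refine h2.trans ?_
    rw [hg]
    exact h1
  have h4 : crit.real {ω | (η * V.card) ^ 2 ≤ g ω} * (V.card * η ^ 2) * V.card =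
      crit.real {ω | (η * V.card) ^ 2 ≤ g ω} * ((η * V.card) ^ 2) := by ring
  nlinarith

end Pool.Agent.U154.QN
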